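import Pool.Agent.Lib.MP_8848fa_gt.Recursion

/-! Dimension of the closed subsets of the space `X` obtained by the recursion. -/

set_option autoImplicit false

namespace Pool.Agent.ZD8848

open Set Topology

theorem small_closure {Y X : Set (ℕ → ℝ)}
    (hX2 : ∀ (K : Set (ℕ → ℝ)) (F : ℕ → Set (ℕ → ℝ)), IsClosed K → ¬ DD Y K →
        (∀ k, DD Y (F k)) → ∃ x ∈ X, x ∈ K ∧ ∀ k, x ∉ F k)
    {A A1 : Set X} (hA : IsClosed A) (L : ℕ → Set X) (hA1 : A ⊆ A1 ∪ ⋃ k, L k)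
    (hL : ∀ k, DD Y (closure (Subtype.val '' L k))) (hA1z : RZ A1) :
    DD Y (closure (Subtype.val '' A)) := by
  obtain ⟨C, hC, hCd, hCz⟩ := (rz_image hA1z).sz.zd.enlarge
  have hcl : ∀ x, x ∈ X → x ∈ closure (Subtype.val '' A) → x ∈ Subtype.val '' A := by
    intro x hxX hx
    have h1 : (⟨x, hxX⟩ : X) ∈ closure A := by
      rw [closure_subtype]
      exact hx
    rw [hA.closure_eq] at h1
    exact ⟨⟨x, hxX⟩, h1, rfl⟩
  refine DD.mk _ (⋃ j, C j)ᶜ (fun j => C j ∩ closure (Subtype.val '' A)) isClosed_closure hCz ?_ ?_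
  · intro j
    by_contra hD
    obtain ⟨x, hxX, ⟨hxC, hxA⟩, hxL⟩ := hX2 (C j ∩ closure (Subtype.val '' A))
      (fun k => closure (Subtype.val '' L k)) ((hC j).inter isClosed_closure) hD hL
    obtain ⟨y, hyA, rfl⟩ := hcl x hxX hxA
    rcases hA1 hyA with h | h
    · exact Set.disjoint_left.1 (hCd j) hxC ⟨y, h, rfl⟩
    · obtain ⟨k, hk⟩ := mem_iUnion.1 h
      exact hxL k (subset_closure ⟨y, hk, rfl⟩)
  · rintro x ⟨hx, -⟩
    by_cases h : x ∈ ⋃ j, C j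
    · obtain ⟨j, hj⟩ := mem_iUnion.1 h
      exact Or.inr (mem_iUnion.2 ⟨j, hj, hx⟩)
    · exact Or.inl h

theorem two_to_one {Y X : Set (ℕ → ℝ)} (hX1 : ∀ F, DD Y F → SZ (X ∩ F))
    (hX2 : ∀ (K : Set (ℕ → ℝ)) (F : ℕ → Set (ℕ → ℝ)), IsClosed K → ¬ DD Y K →
        (∀ k, DD Y (F k)) → ∃ x ∈ X, x ∈ K ∧ ∀ k, x ∉ F k)
    {P : ℕ → Set X → Prop} (hP : IsInd P) (A : Set X) (hA : IsClosed A) (h2 : P 2 A) : P 1 A := by
  obtain ⟨L, hLc, hLA, hLz, hAz⟩ := hP.two_decomp hA h2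
  have hL : ∀ k, DD Y (closure (Subtype.val '' L k)) := by
    intro k
    refine small_closure hX2 (A1 := L k) (hLc k) (fun _ => ∅) (fun x hx => Or.inl hx) ?_ (hLz k)
    intro j
    rw [Set.image_empty, closure_empty]
    exact DD.empty
  have hcA : DD Y (closure (Subtype.val '' A)) := by
    refine small_closure hX2 (A1 := A \ ⋃ k, L k) hA L ?_ hL hAz
    intro x hx
    by_cases h : x ∈ ⋃ k, L k
    · exact Or.inr h
    · exact Or.inl ⟨hx, h⟩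
  rw [hP.one_iff]
  apply rz_of_image
  refine ((hX1 _ hcA).mono ?_).rz
  rintro _ ⟨x, hx, rfl⟩
  exact ⟨x.2, subset_closure ⟨x, hx, rfl⟩⟩

theorem exists_space {T : Set ℝ} (hT : TSet T) (hY : ¬ DD (YY T) KW) :
    ∃ X : Set (ℕ → ℝ), ∀ P : ℕ → Set X → Prop, IsInd P →
      (∃ Z : ℕ → Set X, (∀ i, ∃ k, P k (Z i)) ∧ (⋃ i, Z i) = Set.univ) ∧
      (∀ k : ℕ, ¬ P k Set.univ) ∧ ∀ A : Set X, IsClosed A → P 2 A → P 1 A := by
  obtain ⟨X, hXY, hX1, hX2⟩ := exists_X hT hY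
  refine ⟨X, fun P hP => ⟨?_, ?_, two_to_one hX1 hX2 hP⟩⟩
  · obtain ⟨e, he⟩ := exists_surjective_nat (Finset ℕ)
    refine ⟨fun n => {x : X | {i | x.1 i ∈ T} = (e n : Set ℕ)}, fun n => ⟨1, ?_⟩, ?_⟩
    · rw [hP.one_iff]
      apply rz_of_image
      refine ((sz_pattern hT (e n)).mono ?_).rz
      rintro _ ⟨x, hx, rfl⟩
      exact hx
    · apply Set.eq_univ_of_forall
      intro x
      have hfin := (hXY x.2).2
      obtain ⟨n, hn⟩ := he hfin.toFinset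
      refine mem_iUnion.2 ⟨n, ?_⟩
      show {i | x.1 i ∈ T} = (e n : Set ℕ)
      rw [hn, Set.Finite.coe_toFinset]
  · intro k hk
    have h1 : P 1 Set.univ := hP.collapse (two_to_one hX1 hX2 hP) k _ isClosed_univ hk
    rw [hP.one_iff] at h1
    have h2 : DD (YY T) (closure (Subtype.val '' (Set.univ : Set X))) := by
      refine small_closure hX2 (A1 := Set.univ) isClosed_univ (fun _ => ∅) (fun x hx => Or.inl hx)
        ?_ h1
      intro j
      rw [Set.image_empty, closure_empty]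
      exact DD.empty
    obtain ⟨x, hxX, -, hx⟩ := hX2 KW (fun _ => closure (Subtype.val '' (Set.univ : Set X)))
      isCompact_KW.isClosed hY (fun _ => h2)
    exact hx 0 (subset_closure ⟨⟨x, hxX⟩, Set.mem_univ _, rfl⟩)

theorem final_of {T : Set ℝ} (hT : TSet T) (hY : ¬ DD (YY T) KW) :
    ¬ (∀ (X : Type) [MetricSpace X] [TopologicalSpace.SeparableSpace X]
      (P : ℕ → Set X → Prop),
      (∀ B : Set X, P 0 B ↔ B = ∅) →
      (∀ (k : ℕ) (B : Set X), P (k + 1) B ↔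
        ∀ C U : Set X, IsClosed C → IsOpen U → C ∩ B ⊆ U →
          ∃ V : Set X, IsOpen V ∧ C ∩ B ⊆ V ∧
            closure (V ∩ B) ∩ B ⊆ U ∧
            P k ((closure (V ∩ B) ∩ B) \ V)) →
      (∃ Z : ℕ → Set X, (∀ i, ∃ k, P k (Z i)) ∧ (⋃ i, Z i) = Set.univ) →
      (∀ k : ℕ, ¬ P k Set.univ) →
      ∀ n : ℕ, ∃ A : Set X, IsClosed A ∧ P (n + 1) A ∧ ¬ P n A) := by
  intro h
  obtain ⟨X, hX⟩ := exists_space hT hY
  obtain ⟨h1, h2, h3⟩ := hX (indFam X) isInd_indFam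
  let _ : MetricSpace X := TopologicalSpace.metrizableSpaceMetric X
  obtain ⟨A, hA, hA2, hA1⟩ := h X (indFam X) (fun _ => Iff.rfl) (fun _ _ => Iff.rfl) h1 h2 1
  exact hA1 (h3 A hA hA2)

end Pool.Agent.ZD8848
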