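import Pool.Agent.Lib.MP_8848fa_gt.ClassD

/-! A Cantor scheme inside a set `Kc ∩ ⋂ W n` all of whose listed coordinate fibres are
nowhere dense in it. -/

set_option autoImplicit false

namespace Pool.Agent.ZD8848

open Set Topology

theorem exists_open_closure_subset {x : ℕ → ℝ} {O : Set (ℕ → ℝ)} (hO : IsOpen O) (hx : x ∈ O) :
    ∃ O' : Set (ℕ → ℝ), IsOpen O' ∧ x ∈ O' ∧ closure O' ⊆ O := by
  obtain ⟨O', h1, h2, h3⟩ := normal_exists_closure_subset (isClosed_singleton (x := x)) hO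
    (Set.singleton_subset_iff.2 hx)
  exact ⟨O', h1, h2 rfl, h3⟩

theorem fin_avoid {G : Set (ℕ → ℝ)} (I : Finset ℕ)
    (hI : ∀ i ∈ I, ∀ r : ℝ, ∀ O : Set (ℕ → ℝ), IsOpen O → (O ∩ G).Nonempty →
      (O ∩ {x | x i ≠ r} ∩ G).Nonempty) (c : ℕ → ℝ) {O : Set (ℕ → ℝ)} (hO : IsOpen O)
    (hne : (O ∩ G).Nonempty) : ∃ x ∈ O ∩ G, ∀ i ∈ I, x i ≠ c i := by
  classical
  induction I using Finset.induction_on generalizing O with
  | empty =>
    obtain ⟨x, hx⟩ := hne
    exact ⟨x, hx, by simp⟩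
  | insert j I hj ih =>
    have h1 : IsOpen {x : ℕ → ℝ | x j ≠ c j} :=
      isOpen_ne.preimage (continuous_apply j)
    obtain ⟨x, ⟨⟨hxO, hxj⟩, hxG⟩, hxI⟩ := ih (fun i hi => hI i (Finset.mem_insert_of_mem hi))
      (hO.inter h1) (hI j (Finset.mem_insert_self _ _) (c j) O hO hne)
    refine ⟨x, ⟨hxO, hxG⟩, ?_⟩
    intro i hi
    rcases Finset.mem_insert.1 hi with rfl | hi
    · exact hxj
    · exact hxI i hi

theorem split_step {G : Set (ℕ → ℝ)} (I : Finset ℕ)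
    (hI : ∀ i ∈ I, ∀ r : ℝ, ∀ O : Set (ℕ → ℝ), IsOpen O → (O ∩ G).Nonempty →
      (O ∩ {x | x i ≠ r} ∩ G).Nonempty) {O : Set (ℕ → ℝ)} (hO : IsOpen O)
    (hne : (O ∩ G).Nonempty) : ∃ O' : Bool → Set (ℕ → ℝ), (∀ b, IsOpen (O' b)) ∧
      (∀ b, (O' b ∩ G).Nonempty) ∧ (∀ b, closure (O' b) ⊆ O) ∧
      ∀ i ∈ I, ∀ y ∈ closure (O' true), ∀ z ∈ closure (O' false), y i ≠ z i := by
  obtain ⟨x0, hx0O, hx0G⟩ := hne
  obtain ⟨x1, ⟨hx1O, hx1G⟩, hx1⟩ := fin_avoid I hI (fun i => x0 i) hO ⟨x0, hx0O, hx0G⟩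
  have hop : ∀ x : ℕ → ℝ, IsOpen (⋂ i ∈ I, {y : ℕ → ℝ | |y i - x i| < |x1 i - x0 i| / 2}) := by
    intro x
    refine isOpen_biInter_finset fun i _ => ?_
    exact isOpen_lt (by fun_prop) continuous_const
  have hpos : ∀ i ∈ I, 0 < |x1 i - x0 i| / 2 := by
    intro i hi
    have : 0 < |x1 i - x0 i| := abs_pos.2 (sub_ne_zero.2 (hx1 i hi))
    linarith
  obtain ⟨O0, hO0, hxO0, hO0c⟩ := exists_open_closure_subset (hO.inter (hop x0)) (x := x0)
    ⟨hx0O, mem_iInter₂.2 fun i hi => by simpa [sub_eq_zero] using hx1 i hi⟩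
  obtain ⟨O1, hO1, hxO1, hO1c⟩ := exists_open_closure_subset (hO.inter (hop x1)) (x := x1)
    ⟨hx1O, mem_iInter₂.2 fun i hi => by simpa [sub_eq_zero] using hx1 i hi⟩
  refine ⟨fun b => if b then O1 else O0, ?_, ?_, ?_, ?_⟩
  · intro b
    cases b
    · simpa using hO0
    · simpa using hO1
  · intro b
    cases b
    · exact ⟨x0, by simpa using hxO0, hx0G⟩
    · exact ⟨x1, by simpa using hxO1, hx1G⟩
  · intro b
    cases b
    · have h : closure O0 ⊆ O := fun x hx => (hO0c hx).1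
      simpa using h
    · have h : closure O1 ⊆ O := fun x hx => (hO1c hx).1
      simpa using h
  · intro i hi y hy z hz hyz
    have hy' : y ∈ closure O1 := by simpa using hy
    have hz' : z ∈ closure O0 := by simpa using hz
    have h1 : |y i - x1 i| < |x1 i - x0 i| / 2 := mem_iInter₂.1 (hO1c hy').2 i hi
    have h2 : |z i - x0 i| < |x1 i - x0 i| / 2 := mem_iInter₂.1 (hO0c hz').2 i hi
    have h3 : |x1 i - x0 i| ≤ |y i - x1 i| + |z i - x0 i| := by
      rw [hyz]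
      have h4 : x1 i - x0 i = (z i - x0 i) - (z i - x1 i) := by ring
      rw [h4]
      have h5 := abs_sub (z i - x0 i) (z i - x1 i)
      linarith
    linarith

theorem cantor_scheme {Kc : Set (ℕ → ℝ)} (hKc : IsCompact Kc) (W V : ℕ → Set (ℕ → ℝ))
    (hW : ∀ n, IsOpen (W n)) (hV : ∀ n, IsOpen (V n)) {G : Set (ℕ → ℝ)}
    (hG : G = Kc ∩ ⋂ n, W n) (hne : G.Nonempty)
    (hVd : ∀ n, ∀ O : Set (ℕ → ℝ), IsOpen O → (O ∩ G).Nonempty → (O ∩ V n ∩ G).Nonempty)
    (I : Finset ℕ)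
    (hI : ∀ i ∈ I, ∀ r : ℝ, ∀ O : Set (ℕ → ℝ), IsOpen O → (O ∩ G).Nonempty →
      (O ∩ {x | x i ≠ r} ∩ G).Nonempty) :
    ∃ f : (ℕ → Bool) → ℕ → ℝ, (∀ s, f s ∈ G) ∧ (∀ s n, f s ∈ V n) ∧
      ∀ i ∈ I, Function.Injective fun s => f s i := by
  classical
  let D := {O : Set (ℕ → ℝ) // IsOpen O ∧ (O ∩ G).Nonempty}
  have hstep : ∀ (n : ℕ) (O : D), ∃ O' : Bool → D, (∀ b, closure (O' b).1 ⊆ O.1 ∩ V n ∩ W n) ∧
      ∀ i ∈ I, ∀ y ∈ closure (O' true).1, ∀ z ∈ closure (O' false).1, y i ≠ z i := by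
    intro n O
    have hne' : (O.1 ∩ V n ∩ W n ∩ G).Nonempty := by
      obtain ⟨x, hx1, hx2⟩ := hVd n O.1 O.2.1 O.2.2
      have hx3 := hx2
      rw [hG] at hx3
      exact ⟨x, ⟨hx1, mem_iInter.1 hx3.2 n⟩, hx2⟩
    obtain ⟨O', h1, h2, h3, h4⟩ := split_step I hI ((O.2.1.inter (hV n)).inter (hW n)) hne'
    exact ⟨fun b => ⟨O' b, h1 b, h2 b⟩, h3, h4⟩
  choose st hst1 hst2 using hstep
  let br : (ℕ → Bool) → ℕ → D := fun s n =>
    Nat.rec (motive := fun _ => D) ⟨Set.univ, isOpen_univ, by simpa using hne⟩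
      (fun m p => st m p (s m)) n
  have hbr : ∀ s n, br s (n + 1) = st n (br s n) (s n) := fun s n => rfl
  have hnest : ∀ s n, closure (br s (n + 1)).1 ⊆ (br s n).1 ∩ V n ∩ W n := by
    intro s n
    rw [hbr]
    exact hst1 n _ _
  have hex : ∀ s, ∃ x, x ∈ Kc ∧ ∀ n, x ∈ closure (br s n).1 := by
    intro s
    obtain ⟨x, hx⟩ := IsCompact.nonempty_iInter_of_sequence_nonempty_isCompact_isClosed
      (fun n => Kc ∩ closure (br s n).1)
      (fun n x hx => ⟨hx.1, subset_closure ((hnest s n hx.2).1.1)⟩)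
      (fun n => by
        obtain ⟨x, hx1, hx2⟩ := (br s n).2.2
        rw [hG] at hx2
        exact ⟨x, hx2.1, subset_closure hx1⟩)
      (hKc.inter_right isClosed_closure) (fun n => hKc.isClosed.inter isClosed_closure)
    rw [mem_iInter] at hx
    exact ⟨x, (hx 0).1, fun n => (hx n).2⟩
  choose f hf1 hf2 using hex
  refine ⟨f, ?_, ?_, ?_⟩
  · intro s
    rw [hG]
    exact ⟨hf1 s, mem_iInter.2 fun n => (hnest s n (hf2 s (n + 1))).2⟩
  · intro s n
    exact (hnest s n (hf2 s (n + 1))).1.2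
  · intro i hi s t hst
    by_contra hne
    have hex : ∃ n, s n ≠ t n := Function.ne_iff.1 hne
    let n := Nat.find hex
    have hn : s n ≠ t n := Nat.find_spec hex
    have hmin : ∀ m, m < n → s m = t m := fun m hm => by
      by_contra h
      exact Nat.find_min hex hm h
    have heq : ∀ m, m ≤ n → br s m = br t m := by
      intro m
      induction m with
      | zero => intro _; rfl
      | succ m ih =>
        intro hm
        rw [hbr, hbr, ih (by omega), hmin m (by omega)]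
    have h1 : f s ∈ closure (st n (br s n) (s n)).1 := by
      rw [← hbr]; exact hf2 s (n + 1)
    have h2 : f t ∈ closure (st n (br s n) (t n)).1 := by
      rw [heq n le_rfl, ← hbr]; exact hf2 t (n + 1)
    have hst' : f s i = f t i := hst
    rcases hb : s n with _ | _
    · have hb' : t n = true := by
        rcases hb' : t n with _ | _
        · exact absurd (hb.trans hb'.symm) hn
        · rfl
      rw [hb] at h1
      rw [hb'] at h2
      exact hst2 n _ i hi _ h2 _ h1 hst'.symm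
    · have hb' : t n = false := by
        rcases hb' : t n with _ | _
        · rfl
        · exact absurd (hb.trans hb'.symm) hn
      rw [hb] at h1
      rw [hb'] at h2
      exact hst2 n _ i hi _ h1 _ h2 hst'

end Pool.Agent.ZD8848
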