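import Mathlib

/-! A countable union of closed sets of irrational numbers that has continuum many points in
every interval. -/

set_option autoImplicit false

namespace Pool.Agent.ZD8848

open Set Topology

structure TSet (T : Set ℝ) : Prop where
  fsigma : ∃ Tn : ℕ → Set ℝ, (∀ n, IsClosed (Tn n)) ∧ T = ⋃ n, Tn n
  norat : ∀ q : ℚ, (q : ℝ) ∉ T
  large : ∀ p q : ℝ, p < q → ∃ g : (ℕ → Bool) → ℝ, Function.Injective g ∧
    ∀ s, g s ∈ T ∧ p < g s ∧ g s < q

theorem exists_cantor_irr : ∃ (C : Set ℝ) (f : (ℕ → Bool) → ℝ), IsClosed C ∧ (∀ q : ℚ, (q : ℝ) ∉ C) ∧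
    C ⊆ Set.Ioo 0 1 ∧ Function.Injective f ∧ ∀ s, f s ∈ C := by
  let S : Set ℝ := Set.Ioo 0 1 \ Set.range ((↑) : ℚ → ℝ)
  have hc : (Set.range ((↑) : ℚ → ℝ)).Countable := Set.countable_range _
  have hSm : MeasurableSet S := measurableSet_Ioo.diff hc.measurableSet
  have hvol : MeasureTheory.volume S ≠ 0 := by
    have h1 : MeasureTheory.volume S = MeasureTheory.volume (Set.Ioo (0 : ℝ) 1) :=
      MeasureTheory.measure_sdiff_null (hc.measure_zero _)
    rw [h1]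
    simp
  obtain ⟨K, hKS, hK, hK0⟩ := hSm.exists_lt_isCompact (μ := MeasureTheory.volume)
    (r := 0) (pos_iff_ne_zero.2 hvol)
  have hKn : ¬ K.Countable := by
    intro h
    exact hK0.ne' (h.measure_zero _)
  obtain ⟨f, hf1, hf2, hf3⟩ := hK.isClosed.exists_nat_bool_injection_of_not_countable hKn
  refine ⟨K, f, hK.isClosed, ?_, ?_, hf3, fun s => hf1 (mem_range_self s)⟩
  · intro q hq
    exact (hKS hq).2 ⟨q, rfl⟩
  · intro x hx
    exact (hKS hx).1

theorem exists_TSet : ∃ T : Set ℝ, TSet T := by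
  obtain ⟨C, f, hC, hCq, hC01, hf, hfC⟩ := exists_cantor_irr
  obtain ⟨e, he⟩ := exists_surjective_nat (ℚ × ℕ)
  refine ⟨⋃ n, {x : ℝ | 2 ^ (e n).2 * (x - (e n).1) ∈ C}, ⟨_, fun n => ?_, rfl⟩, ?_, ?_⟩
  · exact hC.preimage (by fun_prop)
  · intro q hq
    obtain ⟨n, hn⟩ := mem_iUnion.1 hq
    apply hCq (2 ^ (e n).2 * (q - (e n).1))
    simpa using hn
  · intro p q hpq
    obtain ⟨k, hk⟩ : ∃ k : ℕ, (1 / 2 : ℝ) ^ k < (q - p) / 2 :=
      exists_pow_lt_of_lt_one (by linarith) (by norm_num)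
    obtain ⟨r, hr1, hr2⟩ := exists_rat_btwn (show p < (p + q) / 2 by linarith)
    refine ⟨fun s => r + (1 / 2 : ℝ) ^ k * f s, ?_, ?_⟩
    · intro s t hst
      apply hf
      have h2 : (1 / 2 : ℝ) ^ k ≠ 0 := by positivity
      have h3 : (1 / 2 : ℝ) ^ k * f s = (1 / 2 : ℝ) ^ k * f t := by
        simpa using hst
      exact mul_left_cancel₀ h2 h3
    · intro s
      have hfs := hC01 (hfC s)
      have hpos : (0 : ℝ) < (1 / 2 : ℝ) ^ k := by positivity
      refine ⟨?_, ?_, ?_⟩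
      · obtain ⟨n, hn⟩ := he (r, k)
        refine mem_iUnion.2 ⟨n, ?_⟩
        rw [Set.mem_ofPred_eq, hn]
        have : (2 : ℝ) ^ k * ((r : ℝ) + (1 / 2 : ℝ) ^ k * f s - r) = f s := by
          have h4 : (2 : ℝ) ^ k * (1 / 2 : ℝ) ^ k = 1 := by
            rw [← mul_pow]; norm_num
          calc (2 : ℝ) ^ k * ((r : ℝ) + (1 / 2 : ℝ) ^ k * f s - r)
              = ((2 : ℝ) ^ k * (1 / 2 : ℝ) ^ k) * f s := by ring
            _ = f s := by rw [h4, one_mul]
        rw [this]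
        exact hfC s
      · have : 0 < (1 / 2 : ℝ) ^ k * f s := mul_pos hpos hfs.1
        show p < (r : ℝ) + (1 / 2 : ℝ) ^ k * f s
        linarith
      · have : (1 / 2 : ℝ) ^ k * f s < (1 / 2 : ℝ) ^ k * 1 :=
          mul_lt_mul_of_pos_left hfs.2 hpos
        show (r : ℝ) + (1 / 2 : ℝ) ^ k * f s < q
        linarith

end Pool.Agent.ZD8848
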