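import Pool.Agent.Lib.MP_8848fa_gt.Ind
import Pool.Agent.Lib.MP_8848fa_gt.SetT

/-! The space `Y` and the class `DD` of closed sets obtained by transfinite iteration of
zero-dimensional set plus countably many members. -/

set_option autoImplicit false

namespace Pool.Agent.ZD8848

open Set Topology

/-- the Hilbert cube in the product of lines -/
def KW : Set (ℕ → ℝ) := Set.pi Set.univ fun _ => Set.Icc 0 1

theorem isCompact_KW : IsCompact KW := isCompact_univ_pi fun _ => isCompact_Icc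

theorem mem_KW {x : ℕ → ℝ} : x ∈ KW ↔ ∀ i, 0 ≤ x i ∧ x i ≤ 1 := by
  simp only [KW, Set.mem_pi, Set.mem_univ, Set.mem_Icc, forall_true_left]

/-- points of the cube with finitely many coordinates in `T` -/
def YY (T : Set ℝ) : Set (ℕ → ℝ) := {x | x ∈ KW ∧ {i | x i ∈ T}.Finite}

/-- points of the cube whose coordinates in `T` have index in `a` -/
def YA (T : Set ℝ) (a : Finset ℕ) : Set (ℕ → ℝ) := {x | x ∈ KW ∧ ∀ i, i ∉ a → x i ∉ T}

/-- the class of small closed sets -/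
inductive DD (Y : Set (ℕ → ℝ)) : Set (ℕ → ℝ) → Prop
  | empty : DD Y ∅
  | mk (F E : Set (ℕ → ℝ)) (f : ℕ → Set (ℕ → ℝ)) (hF : IsClosed F) (hE : ZD E)
      (hf : ∀ n, DD Y (f n)) (hsub : F ∩ Y ⊆ E ∪ ⋃ n, f n) : DD Y F

variable {Y : Set (ℕ → ℝ)}

theorem zd_empty : ZD (∅ : Set (ℕ → ℝ)) := by
  apply SZ.zd
  exact fun x hx => absurd hx (Set.notMem_empty x)

theorem DD.isClosed {F : Set (ℕ → ℝ)} (h : DD Y F) : IsClosed F := by
  cases h with
  | empty => exact isClosed_empty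
  | mk _ _ _ hF _ _ _ => exact hF

theorem DD.mono {F F' : Set (ℕ → ℝ)} (h : DD Y F) (hF' : IsClosed F') (hs : F' ∩ Y ⊆ F) :
    DD Y F' :=
  DD.mk F' ∅ (fun _ => F) hF' zd_empty (fun _ => h) (fun x hx => Or.inr (mem_iUnion.2 ⟨0, hs hx⟩))

/-- traces covered by countably many members of the class -/
def SD (Y : Set (ℕ → ℝ)) (S : Set (ℕ → ℝ)) : Prop :=
  ∃ f : ℕ → Set (ℕ → ℝ), (∀ n, DD Y (f n)) ∧ S ∩ Y ⊆ ⋃ n, f n

theorem SD.dd {F : Set (ℕ → ℝ)} (h : SD Y F) (hF : IsClosed F) : DD Y F := by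
  obtain ⟨f, hf, hs⟩ := h
  exact DD.mk F ∅ f hF zd_empty hf (fun x hx => Or.inr (hs hx))

theorem DD.sd {F : Set (ℕ → ℝ)} (h : DD Y F) : SD Y F :=
  ⟨fun _ => F, fun _ => h, fun x hx => mem_iUnion.2 ⟨0, hx.1⟩⟩

theorem SD.mono {S S' : Set (ℕ → ℝ)} (h : SD Y S) (hs : S' ⊆ S) : SD Y S' := by
  obtain ⟨f, hf, h1⟩ := h
  exact ⟨f, hf, fun x hx => h1 ⟨hs hx.1, hx.2⟩⟩

theorem SD.iUnion {ι : Type*} [Countable ι] {S : ι → Set (ℕ → ℝ)} (h : ∀ i, SD Y (S i)) :
    SD Y (⋃ i, S i) := by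
  rcases isEmpty_or_nonempty ι with hι | hι
  · refine ⟨fun _ => ∅, fun _ => DD.empty, ?_⟩
    rintro x ⟨hx, -⟩
    obtain ⟨i, -⟩ := mem_iUnion.1 hx
    exact hι.elim i
  · choose f hf hs using h
    obtain ⟨e, he⟩ := exists_surjective_nat (ι × ℕ)
    refine ⟨fun n => f (e n).1 (e n).2, fun n => hf _ _, ?_⟩
    rintro x ⟨hx, hxY⟩
    obtain ⟨i, hi⟩ := mem_iUnion.1 hx
    obtain ⟨m, hm⟩ := mem_iUnion.1 (hs i ⟨hi, hxY⟩)
    obtain ⟨n, hn⟩ := he (i, m)
    refine mem_iUnion.2 ⟨n, ?_⟩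
    rw [hn]
    exact hm

theorem SD.union {S S' : Set (ℕ → ℝ)} (h : SD Y S) (h' : SD Y S') : SD Y (S ∪ S') := by
  rw [Set.union_eq_iUnion]
  apply SD.iUnion
  intro b
  cases b
  · exact h'
  · exact h

theorem YY_eq (T : Set ℝ) : YY T = ⋃ a : Finset ℕ, YA T a := by
  ext x
  constructor
  · rintro ⟨hx, hfin⟩
    refine mem_iUnion.2 ⟨hfin.toFinset, hx, ?_⟩
    intro i hi hxi
    exact hi (hfin.mem_toFinset.2 hxi)
  · intro hx
    obtain ⟨a, ha, h2⟩ := mem_iUnion.1 hx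
    refine ⟨ha, a.finite_toSet.subset ?_⟩
    intro i hi
    by_contra hia
    exact h2 i hia hi

/-- the piece `YA` is the trace of a countable intersection of open sets on the cube -/
theorem YA_gdelta {T : Set ℝ} (hT : TSet T) (a : Finset ℕ) :
    ∃ W : ℕ → Set (ℕ → ℝ), (∀ n, IsOpen (W n)) ∧ YA T a = KW ∩ ⋂ n, W n := by
  obtain ⟨Tn, hTn, hTe⟩ := hT.fsigma
  obtain ⟨e, he⟩ := exists_surjective_nat (ℕ × ℕ)
  refine ⟨fun n => if (e n).1 ∈ a then Set.univ else {x | x (e n).1 ∉ Tn (e n).2}, ?_, ?_⟩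
  · intro n
    show IsOpen (if (e n).1 ∈ a then Set.univ else {x : ℕ → ℝ | x (e n).1 ∉ Tn (e n).2})
    split_ifs with h
    · exact isOpen_univ
    · exact ((hTn (e n).2).preimage (continuous_apply (e n).1)).isOpen_compl
  · ext x
    constructor
    · rintro ⟨hx, h2⟩
      refine ⟨hx, mem_iInter.2 fun n => ?_⟩
      show x ∈ (if (e n).1 ∈ a then Set.univ else {x : ℕ → ℝ | x (e n).1 ∉ Tn (e n).2})
      split_ifs with h
      · exact Set.mem_univ _
      · intro h3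
        apply h2 (e n).1 h
        rw [hTe]
        exact mem_iUnion.2 ⟨_, h3⟩
    · rintro ⟨hx, h2⟩
      refine ⟨hx, ?_⟩
      intro i hi hxi
      rw [hTe] at hxi
      obtain ⟨m, hm⟩ := mem_iUnion.1 hxi
      obtain ⟨n, hn⟩ := he (i, m)
      have := mem_iInter.1 h2 n
      rw [hn, if_neg hi] at this
      exact this hm

/-- the set of points of `YY` with prescribed set of coordinates in `T` is zero-dimensional -/
theorem sz_pattern {T : Set ℝ} (hT : TSet T) (a : Finset ℕ) :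
    SZ {x : ℕ → ℝ | {i | x i ∈ T} = (a : Set ℕ)} := by
  apply sz_of_coord
  intro i p q hpq
  by_cases hi : i ∈ a
  · obtain ⟨r, hr1, hr2⟩ := exists_rat_btwn hpq
    refine ⟨r, hr1, hr2, ?_⟩
    intro x hx hxr
    have h1 : i ∈ {i | x i ∈ T} := by
      rw [hx]; exact hi
    have h2 : x i ∈ T := h1
    rw [hxr] at h2
    exact hT.norat r h2
  · obtain ⟨g, -, hg⟩ := hT.large p q hpq
    obtain ⟨h1, h2, h3⟩ := hg (fun _ => true)
    refine ⟨_, h2, h3, ?_⟩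
    intro x hx hxr
    apply hi
    have h4 : i ∈ {i | x i ∈ T} := by
      show x i ∈ T
      rw [hxr]; exact h1
    rw [hx] at h4
    exact h4

end Pool.Agent.ZD8848
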