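import Pool.Agent.Lib.MP_8848fa_gt.Chains
import Pool.Agent.Lib.MP_8848fa_gt.ClassD

/-! Geometric cells and supports of the chains. -/

set_option autoImplicit false

namespace Pool.Agent.ZD8848

open Set Function

/-- interval of the symbol `a` at level `k` -/
noncomputable def cellI (k : ℕ) (a : ℤ) : Set ℝ :=
  Set.Icc (((a / 2 : ℤ) : ℝ) / 2 ^ k) ((((a + 1) / 2 : ℤ) : ℝ) / 2 ^ k)

/-- the cell of `c` at level `k` -/
def cell (k : ℕ) (c : ℕ → ℤ) : Set (ℕ → ℝ) := {x | ∀ i, x i ∈ cellI k (c i)}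

/-- every cell of the chain is contained in `S` -/
def InS (k : ℕ) (Z : Chn) (S : Set (ℕ → ℝ)) : Prop := ∀ c, Z c ≠ 0 → cell k c ⊆ S

/-- chains of level `k` in the first `n` coordinates, with cells of dimension at most `m` -/
structure Ch (k n m : ℕ) (Z : Chn) : Prop where
  fin : ∀ c, Z c ≠ 0 → ∀ i, n ≤ i → c i = 0
  box : ∀ c, Z c ≠ 0 → ∀ i, 0 ≤ c i ∧ c i ≤ 2 ^ (k + 1)
  dim : ∀ c, Z c ≠ 0 → ((Finset.range n).filter fun i => ¬ Even (c i)).card ≤ m

theorem cellI_nonempty (k : ℕ) (a : ℤ) : ((a / 2 : ℤ) : ℝ) / 2 ^ k ∈ cellI k a := by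
  refine ⟨le_rfl, ?_⟩
  apply div_le_div_of_nonneg_right _ (by positivity)
  exact_mod_cast (show a / 2 ≤ (a + 1) / 2 by omega)

theorem cell_nonempty (k : ℕ) (c : ℕ → ℤ) :
    (fun i => ((c i / 2 : ℤ) : ℝ) / 2 ^ k) ∈ cell k c := fun i => cellI_nonempty k (c i)

theorem cellI_diam {k : ℕ} {a : ℤ} {s t : ℝ} (hs : s ∈ cellI k a) (ht : t ∈ cellI k a) :
    |s - t| ≤ 1 / 2 ^ k := by
  have h1 : (((a + 1) / 2 : ℤ) : ℝ) / 2 ^ k ≤ ((a / 2 : ℤ) : ℝ) / 2 ^ k + 1 / 2 ^ k := by
    rw [← add_div]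
    apply div_le_div_of_nonneg_right _ (by positivity)
    exact_mod_cast (show (a + 1) / 2 ≤ a / 2 + 1 by omega)
  rw [abs_le]
  constructor
  · linarith [hs.1, ht.2]
  · linarith [hs.2, ht.1]

theorem cellI_face {k : ℕ} {a : ℤ} (ha : Even a) :
    cellI k a ⊆ cellI k (a + 1) ∧ cellI k a ⊆ cellI k (a - 1) := by
  obtain ⟨b, rfl⟩ := ha
  constructor
  · apply Set.Icc_subset_Icc
    · apply div_le_div_of_nonneg_right _ (by positivity)
      exact_mod_cast (show (b + b + 1) / 2 ≤ (b + b) / 2 by omega)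
    · apply div_le_div_of_nonneg_right _ (by positivity)
      exact_mod_cast (show (b + b + 1) / 2 ≤ (b + b + 1 + 1) / 2 by omega)
  · apply Set.Icc_subset_Icc
    · apply div_le_div_of_nonneg_right _ (by positivity)
      exact_mod_cast (show (b + b - 1) / 2 ≤ (b + b) / 2 by omega)
    · apply div_le_div_of_nonneg_right _ (by positivity)
      exact_mod_cast (show (b + b + 1) / 2 ≤ (b + b - 1 + 1) / 2 by omega)

theorem cellI_par {k : ℕ} {a : ℤ} (ha : a % 4 ≠ 2) : cellI (k + 1) a ⊆ cellI k (par1 a) := by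
  have h2 : (2 : ℝ) ^ (k + 1) = 2 ^ k * 2 := pow_succ _ _
  have key : ∀ u v : ℤ, (u : ℝ) / 2 ^ k = ((2 * u : ℤ) : ℝ) / 2 ^ (k + 1) := by
    intro u v
    rw [h2]
    push_cast
    field_simp
  apply Set.Icc_subset_Icc
  · rw [key _ 0]
    apply div_le_div_of_nonneg_right _ (by positivity)
    exact_mod_cast (show 2 * (par1 a / 2) ≤ a / 2 by
      simp only [par1]; split_ifs <;> omega)
  · rw [key _ 0]
    apply div_le_div_of_nonneg_right _ (by positivity)
    exact_mod_cast (show (a + 1) / 2 ≤ 2 * ((par1 a + 1) / 2) by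
      simp only [par1]; split_ifs <;> omega)

theorem cell_face {k : ℕ} {c : ℕ → ℤ} {i : ℕ} (h : Even (c i)) :
    cell k c ⊆ cell k (update c i (c i + 1)) ∧ cell k c ⊆ cell k (update c i (c i - 1)) := by
  constructor
  · intro x hx j
    by_cases hj : j = i
    · subst hj
      rw [update_self]
      exact (cellI_face h).1 (hx j)
    · rw [update_of_ne hj]
      exact hx j
  · intro x hx j
    by_cases hj : j = i
    · subst hj
      rw [update_self]
      exact (cellI_face h).2 (hx j)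
    · rw [update_of_ne hj]
      exact hx j

theorem bd_ne {n : ℕ} {Z : Chn} {c : ℕ → ℤ} (h : bd n Z c ≠ 0) :
    ∃ i < n, Even (c i) ∧ (Z (update c i (c i + 1)) ≠ 0 ∨ Z (update c i (c i - 1)) ≠ 0) := by
  obtain ⟨i, hi, h1⟩ := Finset.exists_ne_zero_of_sum_ne_zero h
  refine ⟨i, Finset.mem_range.1 hi, ?_⟩
  simp only [di] at h1
  split_ifs at h1 with h2
  · refine ⟨h2, ?_⟩
    by_contra hcon
    push Not at hcon
    rw [hcon.1, hcon.2] at h1
    simp at h1
  · exact absurd rfl h1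

theorem sd_ne {Z : Chn} {c : ℕ → ℤ} (h : sd Z c ≠ 0) :
    (∀ i, c i % 4 ≠ 2) ∧ Z (fun i => par1 (c i)) ≠ 0 := by
  simp only [sd] at h
  split_ifs at h with h1
  · exact absurd rfl h
  · push Not at h1
    exact ⟨h1, h⟩

theorem add_ne {Z Z' : Chn} {c : ℕ → ℤ} (h : (Z + Z') c ≠ 0) : Z c ≠ 0 ∨ Z' c ≠ 0 := by
  by_contra hcon
  push Not at hcon
  apply h
  rw [Pi.add_apply, hcon.1, hcon.2, add_zero]

theorem InS.mono {k : ℕ} {Z : Chn} {S S' : Set (ℕ → ℝ)} (h : InS k Z S) (hs : S ⊆ S') :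
    InS k Z S' := fun c hc => (h c hc).trans hs

theorem InS.add {k : ℕ} {Z Z' : Chn} {S : Set (ℕ → ℝ)} (h : InS k Z S) (h' : InS k Z' S) :
    InS k (Z + Z') S := by
  intro c hc
  rcases add_ne hc with h1 | h1
  · exact h c h1
  · exact h' c h1

theorem InS.zero {k : ℕ} {S : Set (ℕ → ℝ)} : InS k 0 S := fun _ hc => absurd rfl hc

theorem InS.bd {k : ℕ} {Z : Chn} {S : Set (ℕ → ℝ)} (n : ℕ) (h : InS k Z S) :
    InS k (bd n Z) S := by
  intro c hc
  obtain ⟨i, -, he, h1 | h1⟩ := bd_ne hc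
  · exact (cell_face he).1.trans (h _ h1)
  · exact (cell_face he).2.trans (h _ h1)

theorem InS.sd {k : ℕ} {Z : Chn} {S : Set (ℕ → ℝ)} (h : InS k Z S) : InS (k + 1) (sd Z) S := by
  intro c hc
  obtain ⟨h1, h2⟩ := sd_ne hc
  refine Set.Subset.trans ?_ (h _ h2)
  intro x hx i
  exact cellI_par (h1 i) (hx i)

theorem InS.sdi {k : ℕ} {Z : Chn} {S : Set (ℕ → ℝ)} (h : InS k Z S) (j : ℕ) :
    InS (k + j) (Pool.Agent.ZD8848.sd^[j] Z) S := by
  induction j with
  | zero => exact h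
  | succ j ih =>
    rw [iterate_succ_apply']
    exact ih.sd

theorem Ch.add {k n m : ℕ} {Z Z' : Chn} (h : Ch k n m Z) (h' : Ch k n m Z') : Ch k n m (Z + Z') := by
  refine ⟨?_, ?_, ?_⟩
  · intro c hc
    rcases add_ne hc with h1 | h1
    · exact h.fin c h1
    · exact h'.fin c h1
  · intro c hc
    rcases add_ne hc with h1 | h1
    · exact h.box c h1
    · exact h'.box c h1
  · intro c hc
    rcases add_ne hc with h1 | h1
    · exact h.dim c h1
    · exact h'.dim c h1

theorem Ch.of_sub {k n m : ℕ} {Z Z' : Chn} (h : Ch k n m Z) (hs : ∀ c, Z' c ≠ 0 → Z c ≠ 0) :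
    Ch k n m Z' :=
  ⟨fun c hc => h.fin c (hs c hc), fun c hc => h.box c (hs c hc), fun c hc => h.dim c (hs c hc)⟩

theorem Ch.zero (k n m : ℕ) : Ch k n m 0 :=
  ⟨fun _ hc => absurd rfl hc, fun _ hc => absurd rfl hc, fun _ hc => absurd rfl hc⟩

theorem par1_even {a : ℤ} (h : a % 4 ≠ 2) : Even (par1 a) ↔ Even a := by
  rw [Int.even_iff, Int.even_iff]
  simp only [par1]
  split_ifs <;> omega

theorem Ch.sd {k n m : ℕ} {Z : Chn} (h : Ch k n m Z) : Ch (k + 1) n m (sd Z) := by
  refine ⟨?_, ?_, ?_⟩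
  · intro c hc i hi
    obtain ⟨h1, h2⟩ := sd_ne hc
    have h3 := h.fin _ h2 i hi
    have h4 := h1 i
    simp only [par1] at h3
    split_ifs at h3 <;> omega
  · intro c hc i
    obtain ⟨h1, h2⟩ := sd_ne hc
    obtain ⟨h3, h5⟩ := h.box _ h2 i
    have h4 := h1 i
    have h6 : (2 : ℤ) ^ (k + 1 + 1) = 2 ^ (k + 1) * 2 := pow_succ _ _
    have h7 : (2 : ℤ) ^ (k + 1) = 2 ^ k * 2 := pow_succ _ _
    rw [h6]
    rw [h7] at h5 ⊢
    simp only [par1] at h3 h5
    split_ifs at h3 h5 <;> constructor <;> omega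
  · intro c hc
    obtain ⟨h1, h2⟩ := sd_ne hc
    have h3 := h.dim _ h2
    have h4 : ((Finset.range n).filter fun i => ¬ Even (c i)) =
        (Finset.range n).filter fun i => ¬ Even (par1 (c i)) := by
      apply Finset.filter_congr
      intro i _
      rw [par1_even (h1 i)]
    rw [h4]
    exact h3

theorem Ch.sdi {k n m : ℕ} {Z : Chn} (h : Ch k n m Z) (j : ℕ) :
    Ch (k + j) n m (Pool.Agent.ZD8848.sd^[j] Z) := by
  induction j with
  | zero => exact h
  | succ j ih =>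
    rw [iterate_succ_apply']
    exact ih.sd

theorem Ch.mono_n {k n n' m : ℕ} {Z : Chn} (h : Ch k n m Z) (hn : n ≤ n') : Ch k n' m Z := by
  refine ⟨fun c hc i hi => h.fin c hc i (hn.trans hi), h.box, ?_⟩
  intro c hc
  refine (Finset.card_le_card ?_).trans (h.dim c hc)
  intro i hi
  rw [Finset.mem_filter] at hi ⊢
  refine ⟨?_, hi.2⟩
  rw [Finset.mem_range]
  by_contra hcon
  apply hi.2
  rw [h.fin c hc i (by omega)]
  exact Even.zero

theorem Ch.mono_m {k n m m' : ℕ} {Z : Chn} (h : Ch k n m Z) (hm : m ≤ m') : Ch k n m' Z :=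
  ⟨h.fin, h.box, fun c hc => (h.dim c hc).trans hm⟩

theorem Ch.bd_eq {k n n' m : ℕ} {Z : Chn} (h : Ch k n m Z) (hn : n ≤ n') : bd n' Z = bd n Z := by
  funext c
  simp only [bd]
  symm
  apply Finset.sum_subset
  · intro i hi
    rw [Finset.mem_range] at hi ⊢
    omega
  · intro i _ hi
    have hi' : n ≤ i := by
      by_contra hcon
      exact hi (Finset.mem_range.2 (by omega))
    simp only [di]
    split_ifs with h1
    · have h2 : Z (update c i (c i + 1)) = 0 := by
        by_contra hcon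
        have := h.fin _ hcon i hi'
        rw [update_self] at this
        rw [Int.even_iff] at h1
        omega
      have h3 : Z (update c i (c i - 1)) = 0 := by
        by_contra hcon
        have := h.fin _ hcon i hi'
        rw [update_self] at this
        rw [Int.even_iff] at h1
        omega
      rw [h2, h3, add_zero]
    · rfl

theorem Ch.bd {k n m : ℕ} {Z : Chn} (h : Ch k n (m + 1) Z) : Ch k n m (bd n Z) := by
  have hup : ∀ c, Pool.Agent.ZD8848.bd n Z c ≠ 0 → ∃ i < n, ∃ a : ℤ, Even (c i) ∧ ¬ Even a ∧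
      (a = c i + 1 ∨ a = c i - 1) ∧ Z (update c i a) ≠ 0 := by
    intro c hc
    obtain ⟨i, hi, he, h1 | h1⟩ := bd_ne hc
    · exact ⟨i, hi, _, he, by rw [Int.not_even_iff_odd]; exact he.add_one, Or.inl rfl, h1⟩
    · exact ⟨i, hi, _, he, by rw [Int.not_even_iff_odd]; exact he.sub_odd odd_one, Or.inr rfl, h1⟩
  refine ⟨?_, ?_, ?_⟩
  · intro c hc j hj
    obtain ⟨i, hi, a, he, ha, -, h1⟩ := hup c hc
    have := h.fin _ h1 j hj
    rwa [update_of_ne (by omega)] at this
  · intro c hc j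
    obtain ⟨i, hi, a, he, ha, hac, h1⟩ := hup c hc
    have h2 := h.box _ h1 j
    by_cases hj : j = i
    · subst hj
      rw [update_self] at h2
      have h7 : (2 : ℤ) ^ (k + 1) = 2 ^ k * 2 := pow_succ _ _
      rw [h7] at h2 ⊢
      rw [Int.even_iff] at he
      constructor <;> omega
    · rwa [update_of_ne hj] at h2
  · intro c hc
    obtain ⟨i, hi, a, he, ha, hac, h1⟩ := hup c hc
    have h2 := h.dim _ h1
    have h3 : insert i ((Finset.range n).filter fun i => ¬ Even (c i)) ⊆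
        (Finset.range n).filter fun j => ¬ Even (update c i a j) := by
      intro j hj
      rcases Finset.mem_insert.1 hj with h5 | h5
      · rw [h5, Finset.mem_filter, update_self]
        exact ⟨Finset.mem_range.2 hi, ha⟩
      · rw [Finset.mem_filter] at h5 ⊢
        have hji : j ≠ i := by
          intro h6
          rw [h6] at h5
          exact h5.2 he
        rw [update_of_ne hji]
        exact h5
    have h4 := Finset.card_le_card h3
    rw [Finset.card_insert_of_notMem (by simp [he])] at h4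
    omega

end Pool.Agent.ZD8848
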