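import Mathlib

/-! Mod 2 cubical chains on dyadic grids.  A cell is a function `c : ℕ → ℤ`: at level `k` the
even value `2 v` is the point `v / 2 ^ k` and the odd value `2 v + 1` is the interval from
`v / 2 ^ k` to `(v + 1) / 2 ^ k`. -/

set_option autoImplicit false

namespace Pool.Agent.ZD8848

open Set Function

/-- mod 2 chains -/
abbrev Chn : Type := (ℕ → ℤ) → ZMod 2

/-- boundary in direction `i` -/
def di (i : ℕ) (Z : Chn) : Chn := fun c =>
  if Even (c i) then Z (update c i (c i + 1)) + Z (update c i (c i - 1)) else 0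

/-- boundary operator -/
def bd (n : ℕ) (Z : Chn) : Chn := fun c => ∑ i ∈ Finset.range n, di i Z c

/-- parent symbol -/
def par1 (a : ℤ) : ℤ := if a % 2 = 0 then a / 2 else 2 * (a / 4) + 1

open Classical in
/-- subdivision -/
noncomputable def sd (Z : Chn) : Chn := fun c => if ∃ i, c i % 4 = 2 then 0 else Z fun i => par1 (c i)

theorem z2_add_self (a : ZMod 2) : a + a = 0 := CharTwo.add_self_eq_zero a

theorem chn_add_self (Z : Chn) : Z + Z = 0 := funext fun c => z2_add_self (Z c)

theorem di_add (i : ℕ) (Z Z' : Chn) : di i (Z + Z') = di i Z + di i Z' := by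
  funext c
  simp only [di, Pi.add_apply]
  split_ifs
  · ring
  · simp

theorem bd_add (n : ℕ) (Z Z' : Chn) : bd n (Z + Z') = bd n Z + bd n Z' := by
  funext c
  simp only [bd, di_add, Pi.add_apply, Finset.sum_add_distrib]

theorem sd_add (Z Z' : Chn) : sd (Z + Z') = sd Z + sd Z' := by
  funext c
  simp only [sd, Pi.add_apply]
  split_ifs <;> simp

theorem di_zero (i : ℕ) : di i 0 = 0 := by
  funext c
  simp [di]

theorem bd_zero (n : ℕ) : bd n 0 = 0 := by
  funext c
  simp [bd, di_zero]

theorem sd_zero : sd 0 = 0 := by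
  funext c
  simp [sd]

theorem di_di_self (i : ℕ) (Z : Chn) : di i (di i Z) = 0 := by
  funext c
  simp only [di, Pi.zero_apply, update_self]
  by_cases h : Even (c i)
  · have h1 : ¬ Even (c i + 1) := by
      rw [Int.not_even_iff_odd]; exact h.add_one
    have h2 : ¬ Even (c i - 1) := by
      rw [Int.not_even_iff_odd]; exact h.sub_odd odd_one
    simp [h, h1, h2]
  · simp [h]

theorem di_comm {i j : ℕ} (hij : i ≠ j) (Z : Chn) : di i (di j Z) = di j (di i Z) := by
  funext c
  simp only [di, update_of_ne hij, update_of_ne hij.symm]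
  by_cases h1 : Even (c i) <;> by_cases h2 : Even (c j)
  · simp only [h1, h2, if_true, update_comm hij]
    ring
  · simp [h1, h2]
  · simp [h1, h2]
  · simp [h1, h2]

theorem di_sum (i : ℕ) (s : Finset ℕ) (f : ℕ → Chn) (c : ℕ → ℤ) :
    di i (fun c => ∑ j ∈ s, f j c) c = ∑ j ∈ s, di i (f j) c := by
  simp only [di]
  split_ifs
  · rw [Finset.sum_add_distrib]
  · simp

theorem sum_symm_zero (n : ℕ) (a : ℕ → ℕ → ZMod 2) (h0 : ∀ i, a i i = 0)
    (hs : ∀ i j, i ≠ j → a i j = a j i) :
    ∑ i ∈ Finset.range n, ∑ j ∈ Finset.range n, a i j = 0 := by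
  induction n with
  | zero => simp
  | succ n ih =>
    rw [Finset.sum_range_succ]
    have h1 : ∀ i ∈ Finset.range n, ∑ j ∈ Finset.range (n + 1), a i j =
        ∑ j ∈ Finset.range n, a i j + a n i := by
      intro i hi
      rw [Finset.sum_range_succ, hs i n (by have := Finset.mem_range.1 hi; omega)]
    rw [Finset.sum_congr rfl h1, Finset.sum_add_distrib, ih, zero_add, Finset.sum_range_succ, h0,
      add_zero]
    exact z2_add_self _

theorem bd_bd (n : ℕ) (Z : Chn) : bd n (bd n Z) = 0 := by
  funext c
  have h1 : bd n (bd n Z) c = ∑ i ∈ Finset.range n, ∑ j ∈ Finset.range n, di i (di j Z) c := by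
    refine Finset.sum_congr rfl fun i _ => ?_
    exact di_sum i (Finset.range n) (fun j => di j Z) c
  rw [h1]
  exact sum_symm_zero n (fun i j => di i (di j Z) c) (fun i => by
    show di i (di i Z) c = 0
    rw [di_di_self]; rfl) (fun i j hij => by
    show di i (di j Z) c = di j (di i Z) c
    rw [di_comm hij])

theorem par_update (c : ℕ → ℤ) (i : ℕ) (a : ℤ) :
    (fun j => par1 (update c i a j)) = update (fun j => par1 (c j)) i (par1 a) := by
  funext j
  by_cases h : j = i
  · subst h; simp
  · simp [update_of_ne h]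

theorem sd_di (i : ℕ) (Z : Chn) : sd (di i Z) = di i (sd Z) := by
  classical
  funext c
  by_cases hother : ∃ j, j ≠ i ∧ c j % 4 = 2
  · obtain ⟨j, hj, hcj⟩ := hother
    have h1 : ∃ i, c i % 4 = 2 := ⟨j, hcj⟩
    have h2 : ∀ a, ∃ l, update c i a l % 4 = 2 := fun a => ⟨j, by rw [update_of_ne hj]; exact hcj⟩
    simp only [sd, di, h1, h2, if_true, add_zero, ite_self]
  · push Not at hother
    have hup : ∀ a : ℤ, (∃ l, update c i a l % 4 = 2) ↔ a % 4 = 2 := by
      intro a
      constructor
      · rintro ⟨l, hl⟩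
        by_cases hli : l = i
        · subst hli; simpa using hl
        · rw [update_of_ne hli] at hl
          exact absurd hl (hother l hli)
      · intro ha
        exact ⟨i, by simpa using ha⟩
    have hself : (∃ l, c l % 4 = 2) ↔ c i % 4 = 2 := by
      have := hup (c i)
      rwa [update_eq_self] at this
    simp only [sd, di, hup, hself, par_update]
    have key : c i % 4 = 0 ∨ c i % 4 = 1 ∨ c i % 4 = 2 ∨ c i % 4 = 3 := by omega
    rcases key with h | h | h | h
    · have e1 : Even (c i) := Int.even_iff.2 (by omega)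
      have e2 : par1 (c i) = c i / 2 := by simp [par1]; omega
      have e3 : Even (par1 (c i)) := Int.even_iff.2 (by rw [e2]; omega)
      have e4 : par1 (c i + 1) = par1 (c i) + 1 := by
        rw [e2]; simp only [par1]; rw [if_neg (by omega)]; omega
      have e5 : par1 (c i - 1) = par1 (c i) - 1 := by
        rw [e2]; simp only [par1]; rw [if_neg (by omega)]; omega
      have e6 : ¬ (c i % 4 = 2) := by omega
      have e7 : ¬ ((c i + 1) % 4 = 2) := by omega
      have e8 : ¬ ((c i - 1) % 4 = 2) := by omega
      simp only [e1, e3, e4, e5, e6, e7, e8, if_true, if_false]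
    · have e1 : ¬ Even (c i) := by rw [Int.even_iff]; omega
      have e3 : ¬ Even (par1 (c i)) := by
        rw [Int.even_iff]; simp only [par1]; rw [if_neg (by omega)]; omega
      have e6 : ¬ (c i % 4 = 2) := by omega
      simp only [e1, e3, e6, if_false]
    · have e1 : Even (c i) := Int.even_iff.2 (by omega)
      have e4 : par1 (c i + 1) = par1 (c i - 1) := by
        simp only [par1]; rw [if_neg (by omega), if_neg (by omega)]; omega
      have e7 : ¬ ((c i + 1) % 4 = 2) := by omega
      have e8 : ¬ ((c i - 1) % 4 = 2) := by omega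
      simp only [e1, e4, e7, e8, h, if_true, if_false, z2_add_self]
    · have e1 : ¬ Even (c i) := by rw [Int.even_iff]; omega
      have e3 : ¬ Even (par1 (c i)) := by
        rw [Int.even_iff]; simp only [par1]; rw [if_neg (by omega)]; omega
      have e6 : ¬ (c i % 4 = 2) := by omega
      simp only [e1, e3, e6, if_false]

theorem sd_bd (n : ℕ) (Z : Chn) : sd (bd n Z) = bd n (sd Z) := by
  classical
  funext c
  have h1 : bd n (sd Z) c = ∑ i ∈ Finset.range n, sd (di i Z) c :=
    Finset.sum_congr rfl fun i _ => by rw [sd_di]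
  rw [h1]
  simp only [sd, bd]
  split_ifs
  · simp
  · rfl

theorem sdi_add (j : ℕ) (Z Z' : Chn) : sd^[j] (Z + Z') = sd^[j] Z + sd^[j] Z' := by
  induction j with
  | zero => rfl
  | succ j ih => rw [iterate_succ_apply', iterate_succ_apply', iterate_succ_apply', ih, sd_add]

theorem sdi_bd (j n : ℕ) (Z : Chn) : sd^[j] (bd n Z) = bd n (sd^[j] Z) := by
  induction j with
  | zero => rfl
  | succ j ih => rw [iterate_succ_apply', iterate_succ_apply', ih, sd_bd]

theorem sdi_zero (j : ℕ) : sd^[j] (0 : Chn) = 0 := by
  induction j with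
  | zero => rfl
  | succ j ih => rw [iterate_succ_apply', ih, sd_zero]

end Pool.Agent.ZD8848
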