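import Pool.Agent.Lib.MP_8848fa_gt.Cantor

/-! The choice lemma: a closed set outside the class `DD` has a point of `YY T` off countably many
members of the class, which satisfies fewer than continuum many further restrictions. -/

set_option autoImplicit false

namespace Pool.Agent.ZD8848

open Set Topology Cardinal

theorem exists_reduced {Y G0 : Set (ℕ → ℝ)} (hne : ¬ SD Y G0) :
    ∃ S : Set (ℕ → ℝ), IsOpen S ∧ (G0 \ S).Nonempty ∧
      ∀ O : Set (ℕ → ℝ), IsOpen O → (O ∩ (G0 \ S)).Nonempty → ¬ SD Y (O ∩ (G0 \ S)) := by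
  classical
  obtain ⟨b, hbc, hbe, hb⟩ := TopologicalSpace.exists_countable_basis (ℕ → ℝ)
  let bad : Set (Set (ℕ → ℝ)) := {B | B ∈ b ∧ SD Y (B ∩ G0)}
  have hbadc : bad.Countable := hbc.mono fun B hB => hB.1
  have hSD : SD Y (G0 ∩ ⋃₀ bad) := by
    have h1 : G0 ∩ ⋃₀ bad ⊆ ⋃ B : bad, (B.1 ∩ G0) := by
      rintro x ⟨hx, B, hB, hxB⟩
      exact mem_iUnion.2 ⟨⟨B, hB⟩, hxB, hx⟩
    have : Countable bad := hbadc.to_subtype
    exact (SD.iUnion fun B : bad => B.2.2).mono h1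
  refine ⟨⋃₀ bad, isOpen_sUnion fun B hB => hb.isOpen hB.1, ?_, ?_⟩
  · by_contra h
    rw [Set.not_nonempty_iff_eq_empty, Set.sdiff_eq_empty] at h
    apply hne
    exact hSD.mono fun x hx => ⟨hx, h hx⟩
  · rintro O hO ⟨x, hxO, hxG⟩ h
    obtain ⟨B, hB, hxB, hBO⟩ := hb.exists_subset_of_mem_open hxO hO
    apply hxG.2
    refine ⟨B, ⟨hB, (h.union hSD).mono ?_⟩, hxB⟩
    rintro y ⟨hyB, hyG⟩
    by_cases hyS : y ∈ ⋃₀ bad
    · exact Or.inr ⟨hyG, hyS⟩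
    · exact Or.inl ⟨hBO hyB, hyG, hyS⟩

/-- coordinate `i` has nowhere dense fibres in `G` -/
def NWD (G : Set (ℕ → ℝ)) (i : ℕ) : Prop :=
  ∀ r : ℝ, ∀ O : Set (ℕ → ℝ), IsOpen O → (O ∩ G).Nonempty → (O ∩ {x | x i ≠ r} ∩ G).Nonempty

theorem exists_shrink {G : Set (ℕ → ℝ)} (hne : G.Nonempty) (a : Finset ℕ) :
    ∃ O : Set (ℕ → ℝ), IsOpen O ∧ (O ∩ G).Nonempty ∧
      ∀ i ∈ a, (∃ ρ : ℝ, ∀ x ∈ O ∩ G, x i = ρ) ∨ NWD (O ∩ G) i := by
  classical
  induction a using Finset.induction_on with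
  | empty => exact ⟨Set.univ, isOpen_univ, by simpa using hne, by simp⟩
  | insert j a hj ih =>
    obtain ⟨O, hO, hOne, hOa⟩ := ih
    by_cases h : ∃ (ρ : ℝ) (O' : Set (ℕ → ℝ)), IsOpen O' ∧ (O' ∩ (O ∩ G)).Nonempty ∧
        ∀ x ∈ O' ∩ (O ∩ G), x j = ρ
    · obtain ⟨ρ, O', hO', hne', hρ⟩ := h
      refine ⟨O' ∩ O, hO'.inter hO, by rwa [Set.inter_assoc], ?_⟩
      intro i hi
      rcases Finset.mem_insert.1 hi with rfl | hi
      · refine Or.inl ⟨ρ, fun x hx => hρ x ?_⟩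
        rwa [← Set.inter_assoc]
      · rcases hOa i hi with ⟨ρ', hρ'⟩ | hn
        · exact Or.inl ⟨ρ', fun x hx => hρ' x ⟨hx.1.2, hx.2⟩⟩
        · refine Or.inr ?_
          rintro r U hU ⟨x, hxU, ⟨hxO', hxO⟩, hxG⟩
          obtain ⟨y, ⟨⟨hyU, hyO'⟩, hyr⟩, hyO, hyG⟩ := hn r (U ∩ O') (hU.inter hO')
            ⟨x, ⟨hxU, hxO'⟩, hxO, hxG⟩
          exact ⟨y, ⟨hyU, hyr⟩, ⟨hyO', hyO⟩, hyG⟩
    · refine ⟨O, hO, hOne, ?_⟩
      intro i hi
      rcases Finset.mem_insert.1 hi with rfl | hi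
      · refine Or.inr ?_
        intro r U hU hUne
        by_contra hcon
        apply h
        refine ⟨r, U, hU, hUne, ?_⟩
        intro x hx
        by_contra hxr
        exact hcon ⟨x, ⟨hx.1, hxr⟩, hx.2⟩
      · exact hOa i hi

theorem exists_branch {B : Type} (hB : #B < 𝔠) (r : B → ℝ) (I : Finset ℕ)
    (f : (ℕ → Bool) → ℕ → ℝ) (hf : ∀ i ∈ I, Function.Injective fun s => f s i) :
    ∃ s, ∀ i ∈ I, ∀ b, f s i ≠ r b := by
  classical
  by_contra hcon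
  push Not at hcon
  have hcard : #(ℕ → Bool) = 𝔠 := by simp
  have h1 : ∀ s : ℕ → Bool, ∃ p : I × B, f s p.1.1 = r p.2 := by
    intro s
    obtain ⟨i, hi, b, hb⟩ := hcon s
    exact ⟨(⟨i, hi⟩, b), hb⟩
  choose p hp using h1
  have hinj : Function.Injective p := by
    intro s t hst
    apply hf (p s).1.1 (p s).1.2
    show f s (p s).1.1 = f t (p s).1.1
    rw [hp s]
    rw [hst, hp t]
  have h2 : #(ℕ → Bool) ≤ #(I × B) := mk_le_of_injective hinj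
  rw [hcard, mk_prod, lift_id, lift_id] at h2
  have h3 : #I < 𝔠 := (lt_aleph0_of_finite I).trans aleph0_lt_continuum
  exact absurd h2 (not_le.2 (mul_lt_of_lt aleph0_le_continuum h3 hB))

theorem choice_point {T : Set ℝ} (hT : TSet T) {K : Set (ℕ → ℝ)} (hK : IsClosed K)
    (hKD : ¬ DD (YY T) K) (F : ℕ → Set (ℕ → ℝ)) (hF : ∀ k, DD (YY T) (F k))
    {B : Type} (hB : #B < 𝔠) (r : B → ℝ) (hr : Function.Injective r) (hrT : ∀ b, r b ∈ T)
    (ι : B → ℕ) (E : B → Set (ℕ → ℝ)) (hE : ∀ b, DD (YY T) (E b)) :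
    ∃ x, x ∈ K ∧ x ∈ YY T ∧ (∀ k, x ∉ F k) ∧ ∀ b, x (ι b) = r b → x ∉ E b := by
  classical
  -- a piece which is not small
  obtain ⟨a, ha⟩ : ∃ a : Finset ℕ, ¬ SD (YY T) (K ∩ YA T a) := by
    by_contra hcon
    push Not at hcon
    apply hKD
    refine SD.dd ?_ hK
    obtain ⟨f, hf, hs⟩ := SD.iUnion hcon
    refine ⟨f, hf, ?_⟩
    rintro x ⟨hx, hxY⟩
    apply hs
    refine ⟨?_, hxY⟩
    rw [YY_eq] at hxY
    obtain ⟨a, hxa⟩ := mem_iUnion.1 hxY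
    exact mem_iUnion.2 ⟨a, hx, hxa⟩
  have hsub : K ∩ YA T a ⊆ YY T := by
    rintro x ⟨-, hx⟩
    rw [YY_eq]
    exact mem_iUnion.2 ⟨a, hx⟩
  obtain ⟨S, hS, hGne, hGD⟩ := exists_reduced ha
  obtain ⟨O, hO, hOne, hOa⟩ := exists_shrink hGne a
  obtain ⟨W, hW, hWe⟩ := YA_gdelta hT a
  set G : Set (ℕ → ℝ) := (K ∩ YA T a) \ S with hGdef
  -- the restrictions coming from constant coordinates
  let Eu : Set (ℕ → ℝ) := ⋃ i ∈ a, if h : ∃ b, ι b = i ∧ ∀ x ∈ O ∩ G, x i = r b then E h.choose else ∅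
  have hEuc : IsClosed Eu := by
    refine a.finite_toSet.isClosed_biUnion fun i _ => ?_
    split_ifs with h
    · exact (hE _).isClosed
    · exact isClosed_empty
  have hEuD : DD (YY T) Eu := by
    refine SD.dd ?_ hEuc
    have h1 : Eu ⊆ ⋃ i : a, if h : ∃ b, ι b = i.1 ∧ ∀ x ∈ O ∩ G, x i.1 = r b
        then E h.choose else ∅ := by
      intro x hx
      obtain ⟨i, hi, hxi⟩ := mem_iUnion₂.1 hx
      exact mem_iUnion.2 ⟨⟨i, hi⟩, hxi⟩
    refine (SD.iUnion fun i => ?_).mono h1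
    split_ifs with h
    · exact (hE _).sd
    · exact DD.empty.sd
  let N : ℕ → Set (ℕ → ℝ) := fun n => Nat.casesOn n Eu F
  have hND : ∀ n, DD (YY T) (N n) := by
    intro n
    cases n with
    | zero => exact hEuD
    | succ n => exact hF n
  have hKc : IsCompact ((KW ∩ K) \ S) :=
    (isCompact_KW.inter_right hK).diff hS
  obtain ⟨f, hfG, hfV, hfI⟩ := cantor_scheme hKc (fun n => O ∩ W n) (fun n => (N n)ᶜ)
    (fun n => hO.inter (hW n)) (fun n => (hND n).isClosed.isOpen_compl) (G := O ∩ G)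
    (by
      rw [hGdef, hWe]
      ext x
      simp only [Set.mem_inter_iff, Set.mem_sdiff, Set.mem_iInter]
      constructor
      · rintro ⟨h1, ⟨h2, h3, h4⟩, h5⟩
        exact ⟨⟨⟨h3, h2⟩, h5⟩, fun n => ⟨h1, h4 n⟩⟩
      · rintro ⟨⟨⟨h3, h2⟩, h5⟩, h6⟩
        exact ⟨(h6 0).1, ⟨h2, h3, fun n => (h6 n).2⟩, h5⟩)
    hOne
    (by
      intro n U hU hUne
      by_contra hcon
      rw [Set.not_nonempty_iff_eq_empty] at hcon
      apply hGD (U ∩ O) (hU.inter hO) (by rwa [Set.inter_assoc])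
      refine (hND n).sd.mono ?_
      rintro x ⟨⟨hxU, hxO⟩, hxG⟩
      by_contra hxN
      have : x ∈ U ∩ (N n)ᶜ ∩ (O ∩ G) := ⟨⟨hxU, hxN⟩, hxO, hxG⟩
      rw [hcon] at this
      exact this)
    (a.filter fun i => NWD (O ∩ G) i)
    (fun i hi => (Finset.mem_filter.1 hi).2)
  obtain ⟨s, hs⟩ := exists_branch hB r _ f hfI
  have hfs := hfG s
  refine ⟨f s, hfs.2.1.1, hsub hfs.2.1, fun k => hfV s (k + 1), ?_⟩
  intro b hb hxE
  have hba : ι b ∈ a := by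
    by_contra hba
    apply hfs.2.1.2.2 _ hba
    rw [hb]
    exact hrT b
  have hnI : ¬ NWD (O ∩ G) (ι b) := fun h =>
    hs (ι b) (Finset.mem_filter.2 ⟨hba, h⟩) b hb
  obtain ⟨ρ, hρ⟩ := (hOa _ hba).resolve_right hnI
  have hρb : ρ = r b := by rw [← hb, hρ _ hfs]
  have hex : ∃ b', ι b' = ι b ∧ ∀ x ∈ O ∩ G, x (ι b) = r b' :=
    ⟨b, rfl, fun x hx => by rw [hρ x hx, hρb]⟩
  have hch : hex.choose = b := by
    apply hr
    rw [← hex.choose_spec.2 _ hfs, hb]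
  apply hfV s 0
  show f s ∈ Eu
  refine mem_iUnion₂.2 ⟨ι b, hba, ?_⟩
  rw [dif_pos hex, hch]
  exact hxE

end Pool.Agent.ZD8848
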