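import Pool.Agent.Lib.MP_8848fa_gt.Support

/-! Essential chains relative to a closed set; the two steps of the argument. -/

set_option autoImplicit false

namespace Pool.Agent.ZD8848

open Set Function

/-- the relative class of `P` vanishes inside `O` modulo the complement of `F` -/
def Iness (F O : Set (ℕ → ℝ)) (k m : ℕ) (P : Chn) : Prop :=
  ∃ (j n : ℕ) (R : Chn), Ch (k + j) n (m + 1) R ∧ InS (k + j) R O ∧
    InS (k + j) (sd^[j] P + bd n R) Fᶜ

/-- `P` is a relative cycle in `O` modulo the complement of `F` whose class does not vanish -/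
structure Full (F O : Set (ℕ → ℝ)) (k n m : ℕ) (P : Chn) : Prop where
  open' : IsOpen O
  ch : Ch k n m P
  ins : InS k P O
  bdy : InS k (bd n P) Fᶜ
  ess : ¬ Iness F O k m P

theorem Full.exists_mem {F O : Set (ℕ → ℝ)} {k n m : ℕ} {P : Chn} (h : Full F O k n m P) :
    ∃ x, x ∈ F ∧ x ∈ O ∧ x ∈ KW := by
  by_contra hcon
  push Not at hcon
  apply h.ess
  refine ⟨0, n, 0, Ch.zero _ _ _, InS.zero, ?_⟩
  have e : sd^[0] P + bd n 0 = P := by
    rw [bd_zero]
    exact add_zero P
  rw [e]
  intro c hc x hx hxF
  exact hcon x hxF (h.ins c hc hx) (h.ch.inS_KW c hc hx)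

theorem full_base : Full KW Set.univ 0 0 0 pt := by
  have hch : Ch 0 0 0 pt := by
    have h0 : ∀ c, pt c ≠ 0 → c = 0 := by
      intro c hc
      by_contra h
      exact hc (by simp [pt, h])
    refine ⟨?_, ?_, ?_⟩
    · intro c hc i _
      rw [h0 c hc]
      rfl
    · intro c hc i
      rw [h0 c hc]
      simp
    · intro c hc
      simp
  refine ⟨isOpen_univ, hch, fun _ _ => Set.subset_univ _, ?_, ?_⟩
  · intro c hc
    exact absurd (by simp [bd]) hc
  · rintro ⟨j, n, R, hR, -, hoff⟩
    rw [sdi_pt] at hoff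
    apply pt_ne_bd (n := n) hR.finite
    have hZ : Ch (0 + j) n 0 (pt + bd n R) := by
      refine Ch.add ?_ hR.bd
      have h := (hch.sdi j).mono_n (Nat.zero_le n)
      rwa [sdi_pt] at h
    funext c
    by_contra hc
    have h1 := hZ.inS_KW c hc (cell_nonempty _ c)
    exact hoff c hc (cell_nonempty _ c) h1

/-! ### prisms -/

/-- product with the first interval in the new direction `n` -/
def prism (n : ℕ) (Z : Chn) : Chn := fun c => if c n = 1 then Z (update c n 0) else 0

/-- the top of the prism -/
def top (n : ℕ) (Z : Chn) : Chn := fun c => if c n = 2 then Z (update c n 0) else 0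

theorem bd_prism {k n m : ℕ} {Z : Chn} (h : Ch k n m Z) :
    bd (n + 1) (prism n Z) = prism n (bd n Z) + Z + top n Z := by
  funext c
  have h1 : ∑ i ∈ Finset.range n, di i (prism n Z) c = prism n (bd n Z) c := by
    simp only [prism, bd]
    rw [← Finset.sum_filter_add_sum_filter_not (Finset.range n) (fun _ => c n = 1)]
    by_cases hn : c n = 1
    · simp only [hn, if_true, not_true, Finset.filter_true, Finset.filter_false, Finset.sum_empty,
        add_zero]
      refine Finset.sum_congr rfl fun i hi => ?_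
      have hi' : i ≠ n := by have := Finset.mem_range.1 hi; omega
      simp only [di, prism, update_of_ne hi', update_of_ne hi'.symm, hn, if_true, update_comm hi']
    · simp only [hn, if_false, not_false_eq_true, Finset.filter_true, Finset.filter_false,
        Finset.sum_empty, zero_add]
      refine Finset.sum_eq_zero fun i hi => ?_
      have hi' : i ≠ n := by have := Finset.mem_range.1 hi; omega
      simp only [di, prism, update_of_ne hi'.symm, hn, if_false, add_zero, ite_self]
  have h2 : di n (prism n Z) c = Z c + top n Z c := by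
    have hZ : Z c = if c n = 0 then Z (update c n 0) else 0 := by
      split_ifs with h0
      · rw [← h0, update_eq_self]
      · by_contra hc
        exact h0 (h.fin c hc n le_rfl)
    rw [hZ]
    simp only [di, prism, top, update_self, update_idem]
    by_cases h0 : c n = 0
    · simp [h0]
    · by_cases h02 : c n = 2
      · simp [h02, show Even (2 : ℤ) from even_two]
      · have e1 : ¬ (c n + 1 = 1) := by omega
        have e2 : ¬ (c n - 1 = 1) := by omega
        simp [h0, h02, e1, e2]
  show ∑ i ∈ Finset.range (n + 1), di i (prism n Z) c = _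
  rw [Finset.sum_range_succ, h1, h2, Pi.add_apply, Pi.add_apply, add_assoc]

theorem prism_ne {n : ℕ} {Z : Chn} {c : ℕ → ℤ} (h : prism n Z c ≠ 0) :
    c n = 1 ∧ Z (update c n 0) ≠ 0 := by
  simp only [prism] at h
  split_ifs at h with h1
  · exact ⟨h1, h⟩
  · exact absurd rfl h

theorem top_ne {n : ℕ} {Z : Chn} {c : ℕ → ℤ} (h : top n Z c ≠ 0) :
    c n = 2 ∧ Z (update c n 0) ≠ 0 := by
  simp only [top] at h
  split_ifs at h with h1
  · exact ⟨h1, h⟩
  · exact absurd rfl h

theorem Ch.prism {k n m : ℕ} {Z : Chn} (h : Ch k n m Z) : Ch k (n + 1) (m + 1) (prism n Z) := by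
  refine ⟨?_, ?_, ?_⟩
  · intro c hc i hi
    obtain ⟨h1, h2⟩ := prism_ne hc
    have := h.fin _ h2 i (by omega)
    rwa [update_of_ne (by omega)] at this
  · intro c hc i
    obtain ⟨h1, h2⟩ := prism_ne hc
    by_cases hi : i = n
    · subst hi
      rw [h1]
      have : (1 : ℤ) ≤ 2 ^ (k + 1) := one_le_pow₀ (by norm_num)
      exact ⟨by norm_num, this⟩
    · have := h.box _ h2 i
      rwa [update_of_ne hi] at this
  · intro c hc
    obtain ⟨h1, h2⟩ := prism_ne hc
    have h3 := h.dim _ h2
    have h4 : ((Finset.range (n + 1)).filter fun i => ¬ Even (c i)) ⊆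
        insert n ((Finset.range n).filter fun i => ¬ Even (update c n 0 i)) := by
      intro i hi
      rw [Finset.mem_filter, Finset.mem_range] at hi
      rw [Finset.mem_insert, Finset.mem_filter, Finset.mem_range]
      by_cases hin : i = n
      · exact Or.inl hin
      · refine Or.inr ⟨by omega, ?_⟩
        rw [update_of_ne hin]
        exact hi.2
    have h5 := Finset.card_le_card h4
    have h6 := Finset.card_insert_le n ((Finset.range n).filter fun i => ¬ Even (update c n 0 i))
    omega

/-- a cell of the prism is close to the cell of the base -/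
theorem cell_prism {k n : ℕ} {c : ℕ → ℤ} (hc : c n = 1) {y : ℕ → ℝ} (hy : y ∈ cell k c) :
    update y n 0 ∈ cell k (update c n 0) ∧ ∀ j, |update y n 0 j - y j| ≤ 1 / 2 ^ k := by
  constructor
  · intro i
    by_cases hi : i = n
    · subst hi
      rw [update_self, update_self]
      constructor <;> simp
    · rw [update_of_ne hi, update_of_ne hi]
      exact hy i
  · intro j
    by_cases hj : j = n
    · subst hj
      rw [update_self]
      have h1 := hy j
      rw [hc] at h1
      have h0 : (0 : ℝ) ∈ cellI k 1 := by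
        have := cellI_nonempty k 1
        simpa using this
      exact cellI_diam h0 h1
    · rw [update_of_ne hj, sub_self, abs_zero]
      positivity

theorem inS_prism {k n k0 : ℕ} {Z : Chn} {C O : Set (ℕ → ℝ)}
    (h : InS k Z C) (hk : k0 ≤ k)
    (hO : ∀ x ∈ C, ∀ y : ℕ → ℝ, (∀ j, |x j - y j| ≤ 1 / 2 ^ k0) → y ∈ O) :
    InS k (prism n Z) O := by
  intro c hc y hy
  obtain ⟨h1, h2⟩ := prism_ne hc
  obtain ⟨h3, h4⟩ := cell_prism h1 hy
  refine hO _ (h _ h2 h3) y fun j => (h4 j).trans ?_
  exact one_div_le_one_div_of_le (by positivity) (pow_le_pow_right₀ (by norm_num) hk)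

theorem Iness.trans {F O O1 : Set (ℕ → ℝ)} {k m j n : ℕ} {P R : Chn}
    (hR : Ch (k + j) n (m + 1) R) (hRO : InS (k + j) R O) (hO : O1 ⊆ O)
    (h : Iness F O1 (k + j) m (sd^[j] P + bd n R)) : Iness F O k m P := by
  obtain ⟨j2, n2, R2, hR2, hR2O, hoff⟩ := h
  have hR' := (hR.sdi j2)
  rw [add_assoc] at hR2 hR2O hoff hR'
  refine ⟨j + j2, max n n2, sd^[j2] R + R2, ?_, ?_, ?_⟩
  · exact (hR'.mono_n (le_max_left n n2)).add (hR2.mono_n (le_max_right n n2))
  · refine InS.add ?_ (hR2O.mono hO)
    have := hRO.sdi j2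
    rwa [add_assoc] at this
  · have e1 : bd (max n n2) (sd^[j2] R + R2) = sd^[j2] (bd n R) + bd n2 R2 := by
      rw [bd_add, hR'.bd_eq (le_max_left n n2), hR2.bd_eq (le_max_right n n2), sdi_bd]
    have e2 : sd^[j + j2] P = sd^[j2] (sd^[j] P) := by
      rw [add_comm j j2, iterate_add_apply]
    have e3 : sd^[j2] (sd^[j] P) + (sd^[j2] (bd n R) + bd n2 R2) =
        sd^[j2] (sd^[j] P + bd n R) + bd n2 R2 := by
      rw [sdi_add]
      exact (add_assoc _ _ _).symm
    rw [e1, e2, e3]
    exact hoff

end Pool.Agent.ZD8848
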