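import Pool.Agent.Lib.MP_8848fa_gt.ZeroDim

/-! The recursion defining the large inductive dimension and its first two levels. -/

set_option autoImplicit false

namespace Pool.Agent.ZD8848

open Set Topology

variable {α : Type*} [TopologicalSpace α]

/-- `P` is the family Ind B ≤ k - 1 on subsets of the space -/
structure IsInd (P : ℕ → Set α → Prop) : Prop where
  zero : ∀ B : Set α, P 0 B ↔ B = ∅
  succ : ∀ (k : ℕ) (B : Set α), P (k + 1) B ↔
        ∀ C U : Set α, IsClosed C → IsOpen U → C ∩ B ⊆ U →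
          ∃ V : Set α, IsOpen V ∧ C ∩ B ⊆ V ∧
            closure (V ∩ B) ∩ B ⊆ U ∧
            P k ((closure (V ∩ B) ∩ B) \ V)

/-- a family satisfying the recursion -/
def indFam (α : Type*) [TopologicalSpace α] : ℕ → Set α → Prop
  | 0, B => B = ∅
  | k + 1, B => ∀ C U : Set α, IsClosed C → IsOpen U → C ∩ B ⊆ U →
          ∃ V : Set α, IsOpen V ∧ C ∩ B ⊆ V ∧
            closure (V ∩ B) ∩ B ⊆ U ∧
            indFam α k ((closure (V ∩ B) ∩ B) \ V)

theorem isInd_indFam : IsInd (indFam α) := ⟨fun _ => Iff.rfl, fun _ _ => Iff.rfl⟩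

theorem IsInd.one_iff [T3Space α] [SecondCountableTopology α] {P : ℕ → Set α → Prop}
    (hP : IsInd P) (B : Set α) : P 1 B ↔ RZ B := by
  rw [hP.succ 0 B]
  constructor
  · intro h x hx U hU hxU
    obtain ⟨V, hV, h1, h2, h3⟩ := h {x} U isClosed_singleton hU (by
      rintro y ⟨hy, -⟩
      rw [Set.mem_singleton_iff] at hy
      rwa [hy])
    rw [hP.zero] at h3
    refine ⟨V, hV, h1 ⟨rfl, hx⟩, ?_, ?_⟩
    · intro y hy
      exact h2 ⟨subset_closure hy, hy.2⟩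
    · intro y hy
      by_contra hyV
      have : y ∈ (closure (V ∩ B) ∩ B) \ V := ⟨hy, hyV⟩
      rw [h3] at this
      exact this
  · intro h C U hC hU hCU
    obtain ⟨V, V', hV, hV', hd, h1, h2, h3⟩ := h.sz.rsep (A := C ∩ B) (B := B \ U)
      inter_subset_right sdiff_subset (by
        apply Set.eq_empty_of_forall_notMem
        rintro x ⟨⟨hxB, hx1⟩, hx2⟩
        have hx1' : x ∈ C := (closure_minimal inter_subset_left hC) hx1
        have hx2' : x ∈ Uᶜ :=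
          (closure_minimal (fun y hy => hy.2) hU.isClosed_compl) hx2
        exact hx2' (hCU ⟨hx1', hxB⟩))
    have h4 : closure (V ∩ B) ∩ B ⊆ V := by
      rintro y ⟨hy, hyB⟩
      rcases h3 hyB with h5 | h5
      · exact h5
      · obtain ⟨z, hz1, hz2⟩ := mem_closure_iff.1 hy V' hV' h5
        exact absurd hz1 (Set.disjoint_left.1 hd hz2.1)
    refine ⟨V, hV, h1, ?_, ?_⟩
    · intro y hy
      by_contra hyU
      exact Set.disjoint_left.1 hd (h4 hy) (h2 ⟨hy.2, hyU⟩)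
    · rw [hP.zero]
      apply Set.eq_empty_of_forall_notMem
      rintro y ⟨hy, hyV⟩
      exact hyV (h4 hy)

theorem IsInd.two_decomp [T3Space α] [SecondCountableTopology α] {P : ℕ → Set α → Prop}
    (hP : IsInd P) {A : Set α} (hA : IsClosed A) (h : P 2 A) :
    ∃ L : ℕ → Set α, (∀ k, IsClosed (L k)) ∧ (∀ k, L k ⊆ A) ∧ (∀ k, RZ (L k)) ∧
      RZ (A \ ⋃ k, L k) := by
  classical
  rw [hP.succ 1 A] at h
  obtain ⟨b, hbc, hbe, hb⟩ := TopologicalSpace.exists_countable_basis α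
  let I : Set (Set α × Set α) := {p | p.1 ∈ b ∧ p.2 ∈ b ∧ closure p.1 ⊆ p.2}
  have hIc : I.Countable := by
    refine (hbc.prod hbc).mono ?_
    rintro p ⟨h1, h2, -⟩
    exact ⟨h1, h2⟩
  have key : ∀ p ∈ I, ∃ V : Set α, IsOpen V ∧ closure p.1 ∩ A ⊆ V ∧
      closure (V ∩ A) ∩ A ⊆ p.2 ∧ P 1 ((closure (V ∩ A) ∩ A) \ V) := by
    rintro p ⟨h1, h2, h3⟩
    exact h _ _ isClosed_closure (hb.isOpen h2) (fun x hx => h3 hx.1)
  choose! V hV h1 h2 h3 using key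
  let C' : Set α × Set α → Set α := fun p => (closure (V p ∩ A) ∩ A) \ V p
  obtain ⟨C, hC1, hC2⟩ : ∃ C : ℕ → Set α, (∀ j, C j = ∅ ∨ ∃ p ∈ I, C j = C' p) ∧
      ∀ p ∈ I, ∃ j, C j = C' p := by
    rcases I.eq_empty_or_nonempty with hI | hI
    · refine ⟨fun _ => ∅, fun j => Or.inl rfl, ?_⟩
      intro p hp
      rw [hI] at hp
      exact absurd hp (Set.notMem_empty p)
    · obtain ⟨t, ht⟩ := hIc.exists_eq_range hI
      refine ⟨fun j => C' (t j), fun j => Or.inr ⟨t j, ht ▸ mem_range_self j, rfl⟩, ?_⟩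
      intro p hp
      rw [ht] at hp
      obtain ⟨j, rfl⟩ := hp
      exact ⟨j, rfl⟩
  refine ⟨C, ?_, ?_, ?_, ?_⟩
  · intro j
    rcases hC1 j with h0 | ⟨p, hp, h0⟩
    · rw [h0]; exact isClosed_empty
    · rw [h0]; exact (isClosed_closure.inter hA).sdiff (hV p hp)
  · intro j
    rcases hC1 j with h0 | ⟨p, hp, h0⟩
    · rw [h0]; exact Set.empty_subset _
    · rw [h0]; exact fun x hx => hx.1.2
  · intro j
    rcases hC1 j with h0 | ⟨p, hp, h0⟩
    · rw [h0]; exact fun x hx => absurd hx (Set.notMem_empty x)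
    · rw [h0]; exact (hP.one_iff _).1 (h3 p hp)
  · intro x hx O hO hxO
    obtain ⟨B2, hB2, hxB2, hB2O⟩ := hb.exists_subset_of_mem_open hxO hO
    obtain ⟨W, hWx, hWc, hWB⟩ : ∃ W : Set α, W ∈ 𝓝 x ∧ IsClosed W ∧ W ⊆ B2 :=
      exists_mem_nhds_isClosed_subset ((hb.isOpen hB2).mem_nhds hxB2)
    obtain ⟨B1, hB1, hxB1, hB1W⟩ := hb.mem_nhds_iff.1 hWx
    have hp : (B1, B2) ∈ I := ⟨hB1, hB2, (closure_minimal hB1W hWc).trans hWB⟩
    refine ⟨V (B1, B2), hV _ hp, h1 _ hp ⟨subset_closure hxB1, hx.1⟩, ?_, ?_⟩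
    · rintro y ⟨hy, hyA⟩
      have h4 : y ∈ closure (V (B1, B2) ∩ A) ∩ A := ⟨subset_closure (s := V (B1, B2) ∩ A) ⟨hy, hyA.1⟩, hyA.1⟩
      exact hB2O (h2 _ hp h4)
    · rintro y ⟨hy, hyA⟩
      obtain ⟨j, hj⟩ := hC2 _ hp
      by_contra hyV
      apply hyA.2
      refine mem_iUnion.2 ⟨j, ?_⟩
      rw [hj]
      have h5 : V (B1, B2) ∩ (A \ ⋃ k, C k) ⊆ V (B1, B2) ∩ A := fun z hz => ⟨hz.1, hz.2.1⟩
      exact ⟨⟨closure_mono h5 hy, hyA.1⟩, hyV⟩

theorem IsInd.collapse [T3Space α] [SecondCountableTopology α] {P : ℕ → Set α → Prop}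
    (hP : IsInd P) (h : ∀ A : Set α, IsClosed A → P 2 A → P 1 A) :
    ∀ (k : ℕ) (A : Set α), IsClosed A → P k A → P 1 A := by
  intro k
  induction k with
  | zero =>
    intro A _ hA
    rw [hP.zero] at hA
    rw [hP.one_iff, hA]
    exact fun x hx => absurd hx (Set.notMem_empty x)
  | succ k ih =>
    intro A hA hPA
    rcases k with _ | k
    · exact hPA
    · apply h A hA
      rw [hP.succ 1 A]
      rw [hP.succ (k + 1) A] at hPA
      intro C U hC hU hCU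
      obtain ⟨V, hV, h1, h2, h3⟩ := hPA C U hC hU hCU
      exact ⟨V, hV, h1, h2, ih _ ((isClosed_closure.inter hA).sdiff hV) h3⟩

/-- transfer between a subspace and the ambient space -/
theorem rz_image {X : Set α} {A : Set X} (h : RZ A) : RZ (Subtype.val '' A) := by
  rintro _ ⟨x, hx, rfl⟩ U hU hxU
  obtain ⟨V', hV', h1, h2, h3⟩ := h x hx (Subtype.val ⁻¹' U) (hU.preimage continuous_subtype_val) hxU
  obtain ⟨V, hV, rfl⟩ := isOpen_induced_iff.1 hV'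
  refine ⟨V, hV, h1, ?_, ?_⟩
  · rintro _ ⟨hy, y, hyA, rfl⟩
    exact h2 ⟨hy, hyA⟩
  · rintro _ ⟨hy, y, hyA, rfl⟩
    refine h3 ⟨?_, hyA⟩
    rw [closure_subtype]
    refine closure_mono ?_ hy
    rintro _ ⟨hz, z, hzA, rfl⟩
    exact ⟨z, ⟨hz, hzA⟩, rfl⟩

theorem rz_of_image {X : Set α} {A : Set X} (h : RZ (Subtype.val '' A)) : RZ A := by
  intro x hx U' hU' hxU
  obtain ⟨U, hU, rfl⟩ := isOpen_induced_iff.1 hU'
  obtain ⟨V, hV, h1, h2, h3⟩ := h x.1 ⟨x, hx, rfl⟩ U hU hxU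
  refine ⟨Subtype.val ⁻¹' V, hV.preimage continuous_subtype_val, h1, ?_, ?_⟩
  · rintro y ⟨hy, hyA⟩
    exact h2 ⟨hy, y, hyA, rfl⟩
  · rintro y ⟨hy, hyA⟩
    refine h3 ⟨?_, y, hyA, rfl⟩
    rw [closure_subtype] at hy
    refine closure_mono ?_ hy
    rintro _ ⟨z, ⟨hz, hzA⟩, rfl⟩
    exact ⟨hz, z, hzA, rfl⟩

end Pool.Agent.ZD8848
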