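import Pool.Agent.Lib.MP_8848fa_gt.Choice

/-! Transfinite recursion of length the continuum producing the space `X`. -/

set_option autoImplicit false

namespace Pool.Agent.ZD8848

open Set Topology Cardinal

theorem wf_choice {Λ V : Type*} [LinearOrder Λ] [WellFoundedLT Λ] [Nonempty V]
    (Good : Λ → (Λ → V) → V → Prop)
    (hloc : ∀ α g g' v, (∀ β, β < α → g β = g' β) → Good α g v → Good α g' v)
    (hex : ∀ α g, (∀ β, β < α → Good β g (g β)) → ∃ v, Good α g v) :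
    ∃ g : Λ → V, ∀ α, Good α g (g α) := by
  classical
  let arb : V := Classical.arbitrary V
  let Φ : (α : Λ) → ((β : Λ) → β < α → V) → V := fun α prev =>
    Classical.epsilon (Good α fun β => if h : β < α then prev β h else arb)
  let g : Λ → V := (wellFounded_lt (α := Λ)).fix Φ
  have hg : ∀ α, g α = Classical.epsilon (Good α fun β => if β < α then g β else arb) := by
    intro α
    show (wellFounded_lt (α := Λ)).fix Φ α = _
    rw [WellFounded.fix_eq]
    rfl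
  refine ⟨g, fun α => ?_⟩
  induction α using (wellFounded_lt (α := Λ)).induction with
  | _ α ih =>
    obtain ⟨v, hv⟩ := hex α g ih
    have h1 : ∀ β, β < α → g β = (fun β => if β < α then g β else arb) β := by
      intro β hβ
      simp only [hβ, if_true]
    have h2 : Good α (fun β => if β < α then g β else arb) (g α) := by
      rw [hg α]
      exact Classical.epsilon_spec (p := Good α fun β => if β < α then g β else arb)
        ⟨v, hloc α g _ v h1 hv⟩
    exact hloc α _ g _ (fun β hβ => (h1 β hβ).symm) h2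

theorem mk_closed_le : #{F : Set (ℕ → ℝ) // IsClosed F} ≤ 𝔠 := by
  obtain ⟨b, hbc, hbe, hb⟩ := TopologicalSpace.exists_countable_basis (ℕ → ℝ)
  have h1 : #{t : Set (ℕ → ℝ) | MeasurableSpace.GenerateMeasurable b t} ≤ 𝔠 :=
    MeasurableSpace.cardinal_generateMeasurable_le_continuum
      ((mk_le_aleph0_iff.2 hbc.to_subtype).trans aleph0_le_continuum)
  refine (mk_subtype_le_of_subset (q := fun t => MeasurableSpace.GenerateMeasurable b t) ?_).trans h1
  intro F hF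
  have h2 : borel (ℕ → ℝ) = MeasurableSpace.generateFrom b := hb.borel_eq_generateFrom
  have h3 : @MeasurableSet _ (borel (ℕ → ℝ)) F := by
    have h4 : @MeasurableSet _ (borel (ℕ → ℝ)) Fᶜ :=
      MeasurableSpace.measurableSet_generateFrom hF.isOpen_compl
    have h5 := @MeasurableSet.compl _ Fᶜ (borel (ℕ → ℝ)) h4
    rwa [compl_compl] at h5
  rw [h2] at h3
  exact h3

/-- the type of tasks -/
def Tk (Y : Set (ℕ → ℝ)) : Type :=
  {K : Set (ℕ → ℝ) // IsClosed K ∧ ¬ DD Y K} × (ℕ → {F : Set (ℕ → ℝ) // DD Y F}) ×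
    {F : Set (ℕ → ℝ) // DD Y F} × ℕ × {p : ℝ × ℝ // p.1 < p.2}

theorem mk_tk_le (Y : Set (ℕ → ℝ)) : #(Tk Y) ≤ 𝔠 := by
  have h1 : #{K : Set (ℕ → ℝ) // IsClosed K ∧ ¬ DD Y K} ≤ 𝔠 :=
    (mk_subtype_le_of_subset fun _ h => h.1).trans mk_closed_le
  have h2 : #{F : Set (ℕ → ℝ) // DD Y F} ≤ 𝔠 :=
    (mk_subtype_le_of_subset fun _ h => DD.isClosed h).trans mk_closed_le
  have h3 : #(ℕ → {F : Set (ℕ → ℝ) // DD Y F}) ≤ 𝔠 := by
    rw [← power_def, mk_nat, ← continuum_power_aleph0]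
    exact power_le_power_right h2
  have h4 : #{p : ℝ × ℝ // p.1 < p.2} ≤ 𝔠 := by
    refine (mk_subtype_le _).trans ?_
    simpa using mk_real.le
  have h5 : #ℕ ≤ 𝔠 := by rw [mk_nat]; exact aleph0_le_continuum
  have hmul : ∀ {A B : Type}, #A ≤ 𝔠 → #B ≤ 𝔠 → #(A × B) ≤ 𝔠 := by
    intro A B hA hB
    rw [mk_prod, lift_id, lift_id, ← continuum_mul_self]
    exact mul_le_mul' hA hB
  exact hmul h1 (hmul h3 (hmul h2 (hmul h5 h4)))

theorem exists_X {T : Set ℝ} (hT : TSet T) (hY : ¬ DD (YY T) KW) :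
    ∃ X : Set (ℕ → ℝ), X ⊆ YY T ∧ (∀ F, DD (YY T) F → SZ (X ∩ F)) ∧
      ∀ (K : Set (ℕ → ℝ)) (F : ℕ → Set (ℕ → ℝ)), IsClosed K → ¬ DD (YY T) K →
        (∀ k, DD (YY T) (F k)) → ∃ x ∈ X, x ∈ K ∧ ∀ k, x ∉ F k := by
  classical
  let Λ : Type := (𝔠 : Cardinal.{0}).ord.ToType
  have hΛ : #Λ = 𝔠 := mk_ord_toType _
  have hIio : ∀ α : Λ, #(Set.Iio α) < 𝔠 := by
    intro α
    have h := mk_Iio_lt α (by simp [Λ])
    rwa [hΛ] at h
  -- enumeration of the tasks
  have hne : Nonempty (Tk (YY T)) :=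
    ⟨⟨⟨KW, isCompact_KW.isClosed, hY⟩, fun _ => ⟨∅, DD.empty⟩, ⟨∅, DD.empty⟩, 0,
      ⟨(0, 1), by norm_num⟩⟩⟩
  obtain ⟨τ, hτ⟩ : ∃ τ : Λ → Tk (YY T), Function.Surjective τ := by
    have h1 : #(Tk (YY T)) ≤ #Λ := by rw [hΛ]; exact mk_tk_le _
    obtain ⟨e⟩ := le_def _ _ |>.1 h1
    exact ⟨Function.invFun e, Function.invFun_surjective e.injective⟩
  let K : Λ → Set (ℕ → ℝ) := fun α => (τ α).1.1
  let F : Λ → ℕ → Set (ℕ → ℝ) := fun α k => ((τ α).2.1 k).1
  let E : Λ → Set (ℕ → ℝ) := fun α => (τ α).2.2.1.1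
  let ι : Λ → ℕ := fun α => (τ α).2.2.2.1
  let p : Λ → ℝ := fun α => (τ α).2.2.2.2.1.1
  let q : Λ → ℝ := fun α => (τ α).2.2.2.2.1.2
  have hpq : ∀ α, p α < q α := fun α => (τ α).2.2.2.2.2
  let Good : Λ → (Λ → ℝ × (ℕ → ℝ)) → ℝ × (ℕ → ℝ) → Prop := fun α g v =>
    v.1 ∈ T ∧ p α < v.1 ∧ v.1 < q α ∧ (∀ β, β < α → v.1 ≠ (g β).1) ∧
      (∀ β, β < α → v.1 ≠ (g β).2 (ι α)) ∧ v.2 ∈ K α ∧ v.2 ∈ YY T ∧ (∀ k, v.2 ∉ F α k) ∧
      (∀ β, β < α → v.2 (ι β) = (g β).1 → v.2 ∉ E β) ∧ (v.2 (ι α) = v.1 → v.2 ∉ E α)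
  obtain ⟨g, hg⟩ := wf_choice Good (by
      rintro α g g' v hgg ⟨h1, h2, h3, h4, h5, h6, h7, h8, h9, h10⟩
      refine ⟨h1, h2, h3, ?_, ?_, h6, h7, h8, ?_, h10⟩
      · intro β hβ
        rw [← hgg β hβ]
        exact h4 β hβ
      · intro β hβ
        rw [← hgg β hβ]
        exact h5 β hβ
      · intro β hβ
        rw [← hgg β hβ]
        exact h9 β hβ) (by
      intro α g hprev
      -- choose the new value
      obtain ⟨c, hc, hcT⟩ := hT.large (p α) (q α) (hpq α)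
      have hsum : #(Set.Iio α ⊕ Set.Iio α) < 𝔠 := by
        have h := add_lt_of_lt aleph0_le_continuum (hIio α) (hIio α)
        simpa only [mk_sum, lift_id] using h
      obtain ⟨s, hs⟩ := exists_branch hsum
        (Sum.elim (fun β => (g β.1).1) (fun β => (g β.1).2 (ι α))) {0} (fun s _ => c s)
        (fun i _ => hc)
      have hs' := hs 0 (Finset.mem_singleton_self 0)
      have hr1 : ∀ β, β < α → c s ≠ (g β).1 := fun β hβ => hs' (Sum.inl ⟨β, hβ⟩)
      have hr2 : ∀ β, β < α → c s ≠ (g β).2 (ι α) := fun β hβ => hs' (Sum.inr ⟨β, hβ⟩)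
      -- choose the new point
      have hopt : #(Option (Set.Iio α)) < 𝔠 := by
        rw [mk_option]
        exact add_lt_of_lt aleph0_le_continuum (hIio α)
          (one_lt_aleph0.trans aleph0_lt_continuum)
      let rr : Option (Set.Iio α) → ℝ := fun b => b.elim (c s) fun β => (g β.1).1
      obtain ⟨x, hxK, hxY, hxF, hxE⟩ := choice_point hT (τ α).1.2.1 (τ α).1.2.2
        (F α) (fun k => ((τ α).2.1 k).2) hopt rr (by
          intro b b' hbb
          rcases b with _ | ⟨β, hβ⟩ <;> rcases b' with _ | ⟨β', hβ'⟩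
          · rfl
          · exact absurd hbb (hr1 β' hβ')
          · exact absurd hbb.symm (hr1 β hβ)
          · have hbb' : (g β).1 = (g β').1 := hbb
            rcases lt_trichotomy β β' with h | h | h
            · exact absurd hbb'.symm ((hprev β' hβ').2.2.2.1 β h)
            · subst h; rfl
            · exact absurd hbb' ((hprev β hβ).2.2.2.1 β' h))
        (by
          intro b
          rcases b with _ | ⟨β, hβ⟩
          · exact (hcT s).1
          · exact (hprev β hβ).1)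
        (fun b => b.elim (ι α) fun β => ι β.1) (fun b => b.elim (E α) fun β => E β.1)
        (by
          intro b
          rcases b with _ | ⟨β, hβ⟩
          · exact (τ α).2.2.1.2
          · exact (τ β).2.2.1.2)
      exact ⟨(c s, x), (hcT s).1, (hcT s).2.1, (hcT s).2.2, hr1, hr2, hxK, hxY, hxF,
        fun β hβ => hxE (some ⟨β, hβ⟩), hxE none⟩)
  refine ⟨Set.range fun α => (g α).2, ?_, ?_, ?_⟩
  · rintro _ ⟨α, rfl⟩
    exact (hg α).2.2.2.2.2.2.1
  · intro D hD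
    apply sz_of_coord
    intro i a b hab
    obtain ⟨α, hα⟩ := hτ ⟨⟨KW, isCompact_KW.isClosed, hY⟩, fun _ => ⟨∅, DD.empty⟩, ⟨D, hD⟩, i,
      ⟨(a, b), hab⟩⟩
    have hE : E α = D := by simp only [E, hα]
    have hι : ι α = i := by simp only [ι, hα]
    have hp : p α = a := by simp only [p, hα]
    have hq : q α = b := by simp only [q, hα]
    obtain ⟨h1, h2, h3, h4, h5, h6, h7, h8, h9, h10⟩ := hg α
    rw [hp] at h2
    rw [hq] at h3
    refine ⟨(g α).1, h2, h3, ?_⟩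
    rintro _ ⟨⟨β, rfl⟩, hβD⟩ heq
    have heq' : (g β).2 i = (g α).1 := heq
    have hβD' : (g β).2 ∈ D := hβD
    rw [← hι] at heq'
    rcases lt_trichotomy β α with h | h | h
    · exact h5 β h heq'.symm
    · subst h
      rw [hE] at h10
      exact h10 heq' hβD'
    · have := (hg β).2.2.2.2.2.2.2.2.1 α h heq'
      rw [hE] at this
      exact this hβD'
  · intro K' F' hK' hK'D hF'
    obtain ⟨α, hα⟩ := hτ ⟨⟨K', hK', hK'D⟩, fun k => ⟨F' k, hF' k⟩, ⟨∅, DD.empty⟩, 0,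
      ⟨(0, 1), by norm_num⟩⟩
    have hKα : K α = K' := by simp only [K, hα]
    have hFα : F α = F' := by simp only [F, hα]
    obtain ⟨h1, h2, h3, h4, h5, h6, h7, h8, h9, h10⟩ := hg α
    rw [hKα] at h6
    rw [hFα] at h8
    exact ⟨_, ⟨α, rfl⟩, h6, h8⟩

end Pool.Agent.ZD8848
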