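import Pool.Agent.Lib.MP_8848fa_gt.Full

/-! Intersecting with a partition in a new coordinate direction. -/

set_option autoImplicit false

namespace Pool.Agent.ZD8848

open Set Function

theorem z2_move {a b c : Chn} (h : a = b + c) : b = a + c := by
  rw [h, add_assoc, chn_add_self, add_zero]

/-- the key computation: an inessential prism gives an inessential base -/
theorem prism_iness {F O U V : Set (ℕ → ℝ)} {k n m : ℕ} {P : Chn} (hF : IsClosed F)
    (hP : Ch k n m P) (hU : IsOpen U) (hV : IsOpen V) (hUV : Disjoint U V)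
    (hPU : InS k P U) (htop : InS k (top n P) V) (hside : InS k (prism n (bd n P)) Fᶜ)
    (hQO : InS k (prism n P) O) (h : Iness (F ∩ (U ∪ V)ᶜ) O k (m + 1) (prism n P)) :
    Iness F O k m P := by
  classical
  obtain ⟨j, n1, R, hR, hRO, hoff⟩ := h
  set N := max n1 (n + 1) with hN
  have hQ : Ch (k + j) N (m + 1) (sd^[j] (prism n P)) := (hP.prism.sdi j).mono_n (le_max_right _ _)
  have hRN : Ch (k + j) N (m + 1 + 1) R := hR.mono_n (le_max_left _ _)
  rw [← hR.bd_eq (le_max_left n1 (n + 1))] at hoff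
  set Q1 : Chn := sd^[j] (prism n P) + bd N R with hQ1
  have hQ1c : Ch (k + j) N (m + 1) Q1 := hQ.add hRN.bd
  have hQ1O : InS (k + j) Q1 O := (hQO.sdi j).add (hRO.bd N)
  -- fine subdivision
  obtain ⟨t, ht⟩ := unif hQ1c.isCompact_carrier (fun i : Fin 3 => ![Fᶜ, U, V] i)
    (by
      intro i
      fin_cases i
      · exact hF.isOpen_compl
      · exact hU
      · exact hV)
    (by
      intro x hx
      have h1 := inS_iff.1 hoff hx
      by_cases hxF : x ∈ F
      · by_cases hxU : x ∈ U
        · exact mem_iUnion.2 ⟨1, hxU⟩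
        · by_cases hxV : x ∈ V
          · exact mem_iUnion.2 ⟨2, hxV⟩
          · exact absurd ⟨hxF, fun h2 => h2.elim hxU hxV⟩ h1
      · exact mem_iUnion.2 ⟨0, hxF⟩)
  set K := k + j + t with hK
  set Q2 : Chn := sd^[t] Q1 with hQ2
  have hQ2c : Ch K N (m + 1) Q2 := hQ1c.sdi t
  have hQ2O : InS K Q2 O := hQ1O.sdi t
  have hQ2carr : InS K Q2 (carrier (k + j) Q1) := (inS_iff.2 Set.Subset.rfl).sdi t
  have hcases : ∀ c, Q2 c ≠ 0 → cell K c ⊆ Fᶜ ∨ cell K c ⊆ U ∨ cell K c ⊆ V := by
    intro c hc
    obtain ⟨i, hi⟩ := ht _ (hQ2carr c hc (cell_nonempty K c))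
    have h1 : cell K c ⊆ (![Fᶜ, U, V] : Fin 3 → Set (ℕ → ℝ)) i := by
      intro y hy
      refine hi y fun l => (cellI_diam (cell_nonempty K c l) (hy l)).trans ?_
      exact one_div_le_one_div_of_le (by positivity)
        (pow_le_pow_right₀ (by norm_num) (by omega))
    fin_cases i
    · exact Or.inl h1
    · exact Or.inr (Or.inl h1)
    · exact Or.inr (Or.inr h1)
  let A1 : Chn := fun c => if cell K c ⊆ Fᶜ then Q2 c else 0
  let A2 : Chn := fun c => if cell K c ⊆ Fᶜ then 0 else if cell K c ⊆ U then Q2 c else 0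
  let A3 : Chn := fun c => if cell K c ⊆ Fᶜ then 0 else if cell K c ⊆ U then 0 else Q2 c
  have hsum : Q2 = A2 + (A1 + A3) := by
    funext c
    simp only [A1, A2, A3, Pi.add_apply]
    split_ifs <;> simp
  have hA1 : InS K A1 Fᶜ := by
    intro c hc
    simp only [A1] at hc
    split_ifs at hc with h1
    · exact h1
    · exact absurd rfl hc
  have hA2 : InS K A2 U ∧ ∀ c, A2 c ≠ 0 → Q2 c ≠ 0 := by
    constructor
    · intro c hc
      simp only [A2] at hc
      split_ifs at hc with h1 h2
      · exact absurd rfl hc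
      · exact h2
      · exact absurd rfl hc
    · intro c hc
      simp only [A2] at hc
      split_ifs at hc with h1 h2
      · exact absurd rfl hc
      · exact hc
      · exact absurd rfl hc
  have hA3 : InS K A3 V := by
    intro c hc
    simp only [A3] at hc
    split_ifs at hc with h1 h2
    · exact absurd rfl hc
    · exact absurd rfl hc
    · rcases hcases c hc with h3 | h3 | h3
      · exact absurd h3 h1
      · exact absurd h3 h2
      · exact h3
  have hA2c : Ch K N (m + 1) A2 := hQ2c.of_sub hA2.2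
  have hA2O : InS K A2 O := fun c hc => hQ2O c (hA2.2 c hc)
  -- boundary of the subdivided chain
  have hbd : bd N Q2 = sd^[t] (sd^[j] (prism n (bd n P) + P + top n P)) := by
    have e1 : bd N (sd^[j] (prism n P)) = sd^[j] (bd (n + 1) (prism n P)) := by
      rw [(hP.prism.sdi j).bd_eq (le_max_right n1 (n + 1)), sdi_bd]
    rw [hQ2, ← sdi_bd, hQ1, bd_add, e1, bd_bd, add_zero, bd_prism hP]
  have hW : sd^[t] (sd^[j] P) + bd N A2 =
      (sd^[t] (sd^[j] (prism n (bd n P))) + sd^[t] (sd^[j] (top n P))) +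
        (bd N A1 + bd N A3) := by
    have e2 : bd N A2 = bd N Q2 + (bd N A1 + bd N A3) := by
      apply z2_move
      rw [← bd_add, ← bd_add, ← hsum]
    rw [e2, hbd, sdi_add, sdi_add, sdi_add, sdi_add]
    generalize sd^[t] (sd^[j] P) = a
    generalize sd^[t] (sd^[j] (prism n (bd n P))) = b
    generalize sd^[t] (sd^[j] (top n P)) = c
    generalize bd N A1 + bd N A3 = d
    have e3 : a + (b + a + c + d) = (a + a) + (b + c + d) := by abel
    rw [e3, chn_add_self, zero_add]
  refine ⟨j + t, N, A2, ?_, ?_, ?_⟩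
  · rw [← add_assoc]; exact hA2c
  · rw [← add_assoc]; exact hA2O
  · have e4 : sd^[j + t] P = sd^[t] (sd^[j] P) := by
      rw [add_comm j t, iterate_add_apply]
    rw [e4, ← add_assoc]
    intro c hc
    have hcU : cell K c ⊆ U := by
      rcases add_ne hc with h1 | h1
      · exact ((hPU.sdi j).sdi t) c h1
      · exact (hA2.1.bd N) c h1
    have hnV : ¬ cell K c ⊆ V := by
      intro hcV
      exact Set.disjoint_left.1 hUV (hcU (cell_nonempty K c)) (hcV (cell_nonempty K c))
    rw [hW] at hc
    rcases add_ne hc with h1 | h1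
    · rcases add_ne h1 with h2 | h2
      · exact ((hside.sdi j).sdi t) c h2
      · exact absurd (((htop.sdi j).sdi t) c h2) hnV
    · rcases add_ne h1 with h2 | h2
      · exact (hA1.bd N) c h2
      · exact absurd ((hA3.bd N) c h2) hnV

theorem step_A {F O E : Set (ℕ → ℝ)} {k n m : ℕ} {P : Chn} (hF : IsClosed F) (hE : ZD E)
    (h : Full F O k n m P) : ∃ (L : Set (ℕ → ℝ)) (k' : ℕ) (Q : Chn), IsClosed L ∧
      Disjoint L E ∧ Full (F ∩ L) O k' (n + 1) (m + 1) Q := by
  have hbP : Ch k n m (bd n P) := (h.ch.mono_m (Nat.le_succ m)).bd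
  obtain ⟨k1, hk1⟩ := unif_one h.ch.isCompact_carrier h.open' (inS_iff.1 h.ins)
  obtain ⟨k2, hk2⟩ := unif_one hbP.isCompact_carrier hF.isOpen_compl (inS_iff.1 h.bdy)
  set j := max k1 k2 with hj
  set k' := k + j with hk'
  set P' : Chn := sd^[j] P with hP'
  have hP'c : Ch k' n m P' := h.ch.sdi j
  have hP'C : InS k' P' (carrier k P) := (inS_iff.2 Set.Subset.rfl).sdi j
  have hbP'C : InS k' (bd n P') (carrier k (bd n P)) := by
    rw [hP', ← sdi_bd]
    exact (inS_iff.2 Set.Subset.rfl).sdi j
  have hQO : InS k' (prism n P') O :=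
    inS_prism hP'C (by have := le_max_left k1 k2; omega) hk1
  have hside : InS k' (prism n (bd n P')) Fᶜ :=
    inS_prism hbP'C (by have := le_max_right k1 k2; omega) hk2
  have hcn : Continuous fun x : ℕ → ℝ => x n := continuous_apply n
  have hpos : (0 : ℝ) < 1 / 2 ^ k' := by positivity
  obtain ⟨U, V, hU, hV, hUV, hAU, hBV, hEUV⟩ := hE {x | x n ≤ 0} {x | 1 / 2 ^ k' ≤ x n}
    (isClosed_le hcn continuous_const) (isClosed_le continuous_const hcn) (by
      rw [Set.disjoint_left]
      intro x hx hx'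
      have h1 : x n ≤ 0 := hx
      have h2 : 1 / 2 ^ k' ≤ x n := hx'
      linarith)
  have hPU : InS k' P' U := by
    intro c hc x hx
    apply hAU
    have h1 := (hx n).2
    rw [hP'c.fin c hc n le_rfl] at h1
    show x n ≤ 0
    simpa using h1
  have htop : InS k' (top n P') V := by
    intro c hc x hx
    apply hBV
    have h1 := (hx n).1
    rw [(top_ne hc).1] at h1
    show 1 / 2 ^ k' ≤ x n
    simpa using h1
  refine ⟨(U ∪ V)ᶜ, k', prism n P', (hU.union hV).isClosed_compl, ?_, h.open', hP'c.prism, hQO,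
    ?_, ?_⟩
  · rw [Set.disjoint_left]
    intro x hx hxE
    exact hx (hEUV hxE)
  · rw [bd_prism hP'c]
    refine ((hside.mono ?_).add (hPU.mono ?_)).add (htop.mono ?_)
    · intro x hx hx'
      exact hx hx'.1
    · intro x hx hx'
      exact hx'.2 (Or.inl hx)
    · intro x hx hx'
      exact hx'.2 (Or.inr hx)
  · intro hin
    apply h.ess
    have h1 : Iness F O k' m P' :=
      prism_iness hF hP'c hU hV hUV hPU htop hside hQO hin
    refine Iness.trans (n := 0) (R := 0) (Ch.zero _ _ _) InS.zero Set.Subset.rfl (j := j) ?_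
    rw [bd_zero, add_zero]
    exact h1

end Pool.Agent.ZD8848
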