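import Pool.Agent.Lib.MP_8848fa_gt.StepA

/-! The countable sum step and the conclusion: the cube is not in the class `DD (YY T)`. -/

set_option autoImplicit false

namespace Pool.Agent.ZD8848

open Set Function

/-- open sets shrinking to the points with at most `m` coordinates in `T` -/
theorem exists_G {T : Set ℝ} (hT : TSet T) (m : ℕ) :
    ∃ G : ℕ → Set (ℕ → ℝ), (∀ j, IsOpen (G j)) ∧
      (∀ x ∈ KW, (∀ j, x ∈ G j) → x ∈ YY T) ∧
      ∀ (k n : ℕ) (Z : Chn), Ch k n m Z → ∀ j, InS k Z (G j) := by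
  classical
  obtain ⟨Tn, hTn, hTe⟩ := hT.fsigma
  obtain ⟨e, he⟩ := exists_surjective_nat (Finset ℕ × ℕ)
  let T' : ℕ → Set ℝ := fun l => ⋃ i ∈ Finset.range (l + 1), Tn i
  have hT'c : ∀ l, IsClosed (T' l) := fun l =>
    (Finset.range (l + 1)).finite_toSet.isClosed_biUnion fun i _ => hTn i
  have hT'T : ∀ l, T' l ⊆ T := by
    intro l r hr
    obtain ⟨i, -, hi⟩ := mem_iUnion₂.1 hr
    rw [hTe]
    exact mem_iUnion.2 ⟨i, hi⟩
  let G : ℕ → Set (ℕ → ℝ) := fun j =>
    if (e j).1.card = m + 1 then ⋃ i ∈ (e j).1, {x | x i ∉ T' (e j).2} else Set.univ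
  refine ⟨G, ?_, ?_, ?_⟩
  · intro j
    simp only [G]
    split_ifs with h
    · refine isOpen_biUnion fun i _ => ?_
      have h1 : IsClosed ((fun x : ℕ → ℝ => x i) ⁻¹' T' (e j).2) :=
        (hT'c _).preimage (continuous_apply i)
      exact h1.isOpen_compl
    · exact isOpen_univ
  · intro x hx hxG
    refine ⟨hx, ?_⟩
    by_contra hinf
    obtain ⟨b, hb, hbc⟩ := Set.Infinite.exists_subset_card_eq hinf (m + 1)
    have h1 : ∀ i ∈ b, ∃ l, x i ∈ Tn l := by
      intro i hi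
      have h2 : x i ∈ T := hb hi
      rw [hTe] at h2
      exact mem_iUnion.1 h2
    choose! l hl using h1
    obtain ⟨j, hj⟩ := he (b, b.sup l)
    have h3 := hxG j
    simp only [G, hj, hbc, if_true] at h3
    obtain ⟨i, hi, h4⟩ := mem_iUnion₂.1 h3
    apply h4
    refine mem_iUnion₂.2 ⟨l i, ?_, hl i hi⟩
    rw [Finset.mem_range]
    exact Nat.lt_succ_of_le (Finset.le_sup hi)
  · intro k n Z hZ j c hc x hx
    simp only [G]
    split_ifs with h
    · have h1 : ∃ i ∈ (e j).1, Even (c i) := by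
        by_contra hcon
        push Not at hcon
        have h2 : (e j).1 ⊆ (Finset.range n).filter fun i => ¬ Even (c i) := by
          intro i hi
          rw [Finset.mem_filter, Finset.mem_range]
          refine ⟨?_, hcon i hi⟩
          by_contra hin
          apply hcon i hi
          rw [hZ.fin c hc i (by omega)]
          exact Even.zero
        have h3 := Finset.card_le_card h2
        have h4 := hZ.dim c hc
        omega
      obtain ⟨i, hi, hev⟩ := h1
      refine mem_iUnion₂.2 ⟨i, hi, ?_⟩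
      intro hxT
      have h5 := hx i
      obtain ⟨b, hb⟩ := hev
      have h6 : x i = ((b : ℤ) : ℝ) / 2 ^ k := by
        have h7 : c i / 2 = b := by omega
        have h8 : (c i + 1) / 2 = b := by omega
        simp only [cellI, h7, h8, Set.Icc_self, Set.mem_singleton_iff] at h5
        exact h5
      apply hT.norat ((b : ℚ) / 2 ^ k)
      have h9 : (((b : ℚ) / 2 ^ k : ℚ) : ℝ) = x i := by
        rw [h6]; push_cast; rfl
      rw [h9]
      exact hT'T _ hxT
    · exact Set.mem_univ _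

/-- data of an essential chain for `K` -/
structure St (K : Set (ℕ → ℝ)) (m : ℕ) where
  O : Set (ℕ → ℝ)
  k : ℕ
  n : ℕ
  Q : Chn
  full : Full K O k n m Q

theorem step_B {T : Set ℝ} (hT : TSet T) {K O : Set (ℕ → ℝ)} {k n m : ℕ} {Q : Chn}
    (hK : IsClosed K) (F : ℕ → Set (ℕ → ℝ)) (hF : ∀ j, IsClosed (F j))
    (hsub : K ∩ YY T ⊆ ⋃ j, F j) (h : Full K O k n m Q) :
    ∃ (j : ℕ) (O' : Set (ℕ → ℝ)) (k' n' : ℕ) (Q' : Chn), Full (K ∩ F j) O' k' n' m Q' := by
  by_contra hcon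
  push Not at hcon
  obtain ⟨G, hGo, hGY, hGC⟩ := exists_G hT m
  have step : ∀ (j : ℕ) (s : St K m), ∃ s' : St K m,
      closure s'.O ⊆ s.O ∩ G j ∩ (K ∩ F j)ᶜ := by
    intro j s
    have hin : Iness (K ∩ F j) s.O s.k m s.Q := by
      by_contra hne
      exact hcon j s.O s.k s.n s.Q ⟨s.full.open', s.full.ch, s.full.ins,
        s.full.bdy.mono fun x hx hx' => hx hx'.1, hne⟩
    obtain ⟨i, n1, R, hR, hRO, hoff⟩ := hin
    set N := max n1 s.n with hN
    rw [← hR.bd_eq (le_max_left n1 s.n)] at hoff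
    have hRN : Ch (s.k + i) N (m + 1) R := hR.mono_n (le_max_left _ _)
    have hQN : Ch (s.k + i) N m (sd^[i] s.Q) := (s.full.ch.sdi i).mono_n (le_max_right _ _)
    set Q1 : Chn := sd^[i] s.Q + bd N R with hQ1
    have hQ1c : Ch (s.k + i) N m Q1 := hQN.add hRN.bd
    have hQ1O : InS (s.k + i) Q1 s.O := (s.full.ins.sdi i).add (hRO.bd N)
    have hcarr : carrier (s.k + i) Q1 ⊆ s.O ∩ G j ∩ (K ∩ F j)ᶜ := by
      intro x hx
      exact ⟨⟨inS_iff.1 hQ1O hx, inS_iff.1 (hGC _ _ _ hQ1c j) hx⟩, inS_iff.1 hoff hx⟩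
    obtain ⟨O1, hO1, hcO1, hclO1⟩ := normal_exists_closure_subset
      hQ1c.isCompact_carrier.isClosed
      ((s.full.open'.inter (hGo j)).inter (hK.inter (hF j)).isOpen_compl) hcarr
    refine ⟨⟨O1, s.k + i, N, Q1, hO1, hQ1c, inS_iff.2 hcO1, ?_, ?_⟩, hclO1⟩
    · have e1 : bd N Q1 = sd^[i] (bd s.n s.Q) := by
        rw [hQ1, bd_add, bd_bd, add_zero, (s.full.ch.sdi i).bd_eq (le_max_right n1 s.n), sdi_bd]
      rw [e1]
      exact s.full.bdy.sdi i
    · intro hne
      apply s.full.ess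
      exact hne.trans hRN hRO fun x hx => (hclO1 (subset_closure hx)).1.1
  choose nxt hnxt using step
  let s : ℕ → St K m := fun j =>
    Nat.rec (motive := fun _ => St K m) ⟨O, k, n, Q, h⟩ (fun i p => nxt i p) j
  have hs : ∀ j, closure (s (j + 1)).O ⊆ (s j).O ∩ G j ∩ (K ∩ F j)ᶜ := fun j => hnxt j (s j)
  obtain ⟨x, hx⟩ := IsCompact.nonempty_iInter_of_sequence_nonempty_isCompact_isClosed
    (fun j => KW ∩ (K ∩ closure (s j).O))
    (fun j x hx => ⟨hx.1, hx.2.1, subset_closure (hs j hx.2.2).1.1⟩)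
    (fun j => by
      obtain ⟨x, h1, h2, h3⟩ := (s j).full.exists_mem
      exact ⟨x, h3, h1, subset_closure h2⟩)
    (isCompact_KW.inter_right (hK.inter isClosed_closure))
    (fun j => isCompact_KW.isClosed.inter (hK.inter isClosed_closure))
  rw [mem_iInter] at hx
  have hxK : x ∈ K := (hx 0).2.1
  have hxY : x ∈ YY T := hGY x (hx 0).1 fun j => (hs j (hx (j + 1)).2.2).1.2
  obtain ⟨j, hj⟩ := mem_iUnion.1 (hsub ⟨hxK, hxY⟩)
  exact (hs j (hx (j + 1)).2.2).2 ⟨hxK, hj⟩

theorem DD.not_full {T : Set ℝ} (hT : TSet T) {F : Set (ℕ → ℝ)} (hF : DD (YY T) F) :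
    ∀ (K O : Set (ℕ → ℝ)) (k n m : ℕ) (Q : Chn), IsClosed K → K ⊆ F → ¬ Full K O k n m Q := by
  induction hF with
  | empty =>
    intro K O k n m Q hK hKF h
    obtain ⟨x, hx, -, -⟩ := h.exists_mem
    exact hKF hx
  | mk F E f hF hE hf hsub ih =>
    intro K O k n m Q hK hKF h
    obtain ⟨L, k', Q', hL, hLE, hfull⟩ := step_A hK hE h
    obtain ⟨j, O', k'', n'', Q'', hfull'⟩ := step_B hT (hK.inter hL) f (fun j => (hf j).isClosed)
      (by
        rintro x ⟨⟨hxK, hxL⟩, hxY⟩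
        rcases hsub ⟨hKF hxK, hxY⟩ with h1 | h1
        · exact absurd h1 (Set.disjoint_left.1 hLE hxL)
        · exact h1) hfull
    exact ih j _ _ _ _ _ _ ((hK.inter hL).inter (hf j).isClosed) Set.inter_subset_right hfull'

theorem not_dd {T : Set ℝ} (hT : TSet T) : ¬ DD (YY T) KW := fun h =>
  h.not_full hT KW Set.univ 0 0 0 pt isCompact_KW.isClosed Set.Subset.rfl full_base

end Pool.Agent.ZD8848
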