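import Pool.Agent.Lib.MP_8848fa_gt.Cells

/-! Compactness of supports, a uniformity lemma, augmentation, prisms. -/

set_option autoImplicit false

namespace Pool.Agent.ZD8848

open Set Function

theorem Ch.finite {k n m : ℕ} {Z : Chn} (h : Ch k n m Z) : {c | Z c ≠ 0}.Finite := by
  refine Set.Finite.of_injOn (f := fun (c : ℕ → ℤ) (i : Fin n) => c i)
    (t := Set.pi Set.univ fun _ : Fin n => Set.Icc (0 : ℤ) (2 ^ (k + 1))) ?_ ?_
    (Set.Finite.pi fun _ => Set.finite_Icc _ _)
  · intro c hc i _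
    exact h.box c hc i
  · intro c hc c' hc' heq
    funext i
    by_cases hi : i < n
    · exact congrFun heq ⟨i, hi⟩
    · rw [h.fin c hc i (by omega), h.fin c' hc' i (by omega)]

/-- union of the cells of a chain -/
def carrier (k : ℕ) (Z : Chn) : Set (ℕ → ℝ) := ⋃ c ∈ {c | Z c ≠ 0}, cell k c

theorem inS_iff {k : ℕ} {Z : Chn} {S : Set (ℕ → ℝ)} : InS k Z S ↔ carrier k Z ⊆ S := by
  constructor
  · intro h x hx
    obtain ⟨c, hc, hxc⟩ := mem_iUnion₂.1 hx
    exact h c hc hxc
  · intro h c hc x hx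
    exact h (mem_iUnion₂.2 ⟨c, hc, hx⟩)

theorem isCompact_cell (k : ℕ) (c : ℕ → ℤ) : IsCompact (cell k c) := by
  have h : cell k c = Set.pi Set.univ fun i => cellI k (c i) := by
    ext x
    simp only [cell, Set.mem_pi, Set.mem_univ, forall_true_left]
    rfl
  rw [h]
  exact isCompact_univ_pi fun i => isCompact_Icc

theorem Ch.isCompact_carrier {k n m : ℕ} {Z : Chn} (h : Ch k n m Z) : IsCompact (carrier k Z) :=
  h.finite.isCompact_biUnion fun c _ => isCompact_cell k c

theorem Ch.inS_KW {k n m : ℕ} {Z : Chn} (h : Ch k n m Z) : InS k Z KW := by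
  intro c hc x hx
  rw [mem_KW]
  intro i
  obtain ⟨h1, h2⟩ := h.box c hc i
  obtain ⟨h3, h4⟩ := hx i
  constructor
  · refine le_trans ?_ h3
    apply div_nonneg _ (by positivity)
    exact_mod_cast (show 0 ≤ c i / 2 by omega)
  · refine le_trans h4 ?_
    rw [div_le_one (by positivity)]
    have h7 : (2 : ℤ) ^ (k + 1) = 2 ^ k * 2 := pow_succ _ _
    rw [h7] at h2
    have h8 : (c i + 1) / 2 ≤ 2 ^ k := by omega
    exact_mod_cast h8

/-- closeness in all coordinates -/
theorem unif {C : Set (ℕ → ℝ)} (hC : IsCompact C) {ι : Type*} (U : ι → Set (ℕ → ℝ))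
    (hU : ∀ i, IsOpen (U i)) (hcov : C ⊆ ⋃ i, U i) :
    ∃ k : ℕ, ∀ x ∈ C, ∃ i, ∀ y : ℕ → ℝ, (∀ j, |x j - y j| ≤ 1 / 2 ^ k) → y ∈ U i := by
  obtain ⟨V, hV, hVb⟩ := lebesgue_number_lemma hC hU hcov
  let B : ℕ → Set ((ℕ → ℝ) × (ℕ → ℝ)) := fun k => {p | ∀ j, |p.1 j - p.2 j| ≤ 1 / 2 ^ k}
  have hBanti : Antitone B := by
    intro k l hkl p hp j
    refine (hp j).trans ?_
    exact one_div_le_one_div_of_le (by positivity) (pow_le_pow_right₀ (by norm_num) hkl)
  have hle : (⨅ k, Filter.principal (B k)) ≤ uniformity (ℕ → ℝ) := by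
    rw [Pi.uniformity]
    refine le_iInf fun i => ?_
    intro s hs
    obtain ⟨t, ht, hts⟩ := Filter.mem_comap.1 hs
    obtain ⟨ε, hε, hεt⟩ := Metric.mem_uniformity_dist.1 ht
    obtain ⟨k, hk⟩ : ∃ k : ℕ, (1 / 2 : ℝ) ^ k < ε := exists_pow_lt_of_lt_one hε (by norm_num)
    refine Filter.mem_iInf_of_mem k ?_
    rw [Filter.mem_principal]
    intro p hp
    apply hts
    apply hεt
    rw [Real.dist_eq]
    refine (hp i).trans_lt ?_
    rwa [one_div_pow] at hk
  have hdir : Directed (· ≥ ·) fun k => Filter.principal (B k) := by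
    intro k l
    refine ⟨max k l, ?_, ?_⟩
    · exact Filter.principal_mono.2 (hBanti (le_max_left k l))
    · exact Filter.principal_mono.2 (hBanti (le_max_right k l))
  obtain ⟨k, hk⟩ := (Filter.mem_iInf_of_directed hdir V).1 (hle hV)
  rw [Filter.mem_principal] at hk
  refine ⟨k, fun x hx => ?_⟩
  obtain ⟨i, hi⟩ := hVb x hx
  exact ⟨i, fun y hy => hi (hk hy)⟩

theorem unif_one {C O : Set (ℕ → ℝ)} (hC : IsCompact C) (hO : IsOpen O) (hCO : C ⊆ O) :
    ∃ k : ℕ, ∀ x ∈ C, ∀ y : ℕ → ℝ, (∀ j, |x j - y j| ≤ 1 / 2 ^ k) → y ∈ O := by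
  obtain ⟨k, hk⟩ := unif hC (fun _ : Unit => O) (fun _ => hO) (fun x hx => mem_iUnion.2 ⟨(), hCO hx⟩)
  exact ⟨k, fun x hx => (hk x hx).choose_spec⟩

/-! ### augmentation -/

/-- shift of one coordinate -/
def shiftE (i : ℕ) : (ℕ → ℤ) ≃ (ℕ → ℤ) where
  toFun c := update c i (c i + 1)
  invFun c := update c i (c i - 1)
  left_inv c := by simp
  right_inv c := by simp

theorem aug_di (i : ℕ) (R : Chn) (hR : {c | R c ≠ 0}.Finite) : ∑ᶠ c, di i R c = 0 := by
  let f : Chn := fun c => if Even (c i) then 0 else R c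
  have hf : (support f).Finite := by
    refine hR.subset ?_
    intro c hc
    simp only [f, mem_support, ne_eq, ite_eq_left_iff, not_forall] at hc
    exact hc.2
  have h1 : ∀ c, di i R c = f (shiftE i c) + f ((shiftE i).symm c) := by
    intro c
    simp only [di, f, shiftE, Equiv.coe_fn_mk, Equiv.coe_fn_symm_mk, update_self]
    by_cases h : Even (c i)
    · have h1 : ¬ Even (c i + 1) := by
        rw [Int.not_even_iff_odd]; exact h.add_one
      have h2 : ¬ Even (c i - 1) := by
        rw [Int.not_even_iff_odd]; exact h.sub_odd odd_one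
      simp only [h, h1, h2, if_true, if_false]
    · have h1 : Even (c i + 1) := by
        rw [Int.not_even_iff_odd] at h; exact h.add_one
      have h2 : Even (c i - 1) := by
        rw [Int.not_even_iff_odd] at h; exact h.sub_odd odd_one
      simp only [h, h1, h2, if_true, if_false, add_zero]
  rw [finsum_congr h1, finsum_add_distrib]
  · rw [finsum_comp_equiv (shiftE i), finsum_comp_equiv (shiftE i).symm]
    exact z2_add_self _
  · exact hf.preimage (shiftE i).injective.injOn
  · exact hf.preimage (shiftE i).symm.injective.injOn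

theorem finite_di (i : ℕ) (R : Chn) (hR : {c | R c ≠ 0}.Finite) : (support (di i R)).Finite := by
  refine ((hR.preimage (shiftE i).injective.injOn).union
    (hR.preimage (shiftE i).symm.injective.injOn)).subset ?_
  intro c hc
  by_contra hcon
  apply hc
  have h1 : R (update c i (c i + 1)) = 0 := by
    by_contra h
    exact hcon (Or.inl h)
  have h2 : R (update c i (c i - 1)) = 0 := by
    by_contra h
    exact hcon (Or.inr h)
  simp only [di, h1, h2, add_zero, ite_self]

theorem aug_bd (n : ℕ) (R : Chn) (hR : {c | R c ≠ 0}.Finite) : ∑ᶠ c, bd n R c = 0 := by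
  have h1 : ∑ᶠ c, bd n R c = ∑ i ∈ Finset.range n, ∑ᶠ c, di i R c :=
    finsum_sum_comm (Finset.range n) (fun c i => di i R c) fun i _ => finite_di i R hR
  rw [h1]
  exact Finset.sum_eq_zero fun i _ => aug_di i R hR

open Classical in
/-- the chain consisting of the origin -/
noncomputable def pt : Chn := fun c => if c = 0 then 1 else 0

theorem sd_pt : sd pt = pt := by
  classical
  funext c
  by_cases h : c = 0
  · subst h
    simp [sd, pt, par1]
    rfl
  · have h1 : pt c = 0 := by simp [pt, h]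
    rw [h1]
    by_contra hcon
    obtain ⟨h2, h3⟩ := sd_ne hcon
    apply h
    have h4 : (fun i => par1 (c i)) = 0 := by
      by_contra h5
      apply h3
      simp [pt, h5]
    funext i
    have h6 : par1 (c i) = 0 := congrFun h4 i
    have h7 := h2 i
    simp only [par1] at h6
    show c i = 0
    split_ifs at h6 <;> omega

theorem sdi_pt (j : ℕ) : sd^[j] pt = pt := by
  induction j with
  | zero => rfl
  | succ j ih => rw [iterate_succ_apply', ih, sd_pt]

theorem aug_pt : ∑ᶠ c, pt c = 1 := by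
  rw [finsum_eq_single pt 0 (fun c hc => by simp [pt, hc])]
  simp [pt]

theorem pt_ne_bd {n : ℕ} {R : Chn} (hR : {c | R c ≠ 0}.Finite) : pt + bd n R ≠ 0 := by
  intro h
  have h1 : pt = bd n R := by
    have h2 : pt + bd n R + bd n R = bd n R := by rw [h, zero_add]
    rwa [add_assoc, chn_add_self, add_zero] at h2
  have h3 := aug_pt
  rw [h1, aug_bd n R hR] at h3
  exact zero_ne_one h3

end Pool.Agent.ZD8848
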