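import Mathlib

/-! Zero-dimensional subsets of a separable metrizable space: pointwise form and
separation form, enlargement to a countable intersection of open sets. -/

set_option autoImplicit false

namespace Pool.Agent.ZD8848

open Set Topology

variable {α : Type*} [TopologicalSpace α]

/-- relative form of zero-dimensionality of the subset `S` -/
def RZ (S : Set α) : Prop :=
  ∀ x ∈ S, ∀ U : Set α, IsOpen U → x ∈ U →
    ∃ V : Set α, IsOpen V ∧ x ∈ V ∧ V ∩ S ⊆ U ∧ closure (V ∩ S) ∩ S ⊆ V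

/-- ambient form of zero-dimensionality of the subset `S` -/
def SZ (S : Set α) : Prop :=
  ∀ x ∈ S, ∀ U : Set α, IsOpen U → x ∈ U →
    ∃ W : Set α, IsOpen W ∧ x ∈ W ∧ W ⊆ U ∧ closure W ∩ S ⊆ W

/-- separation form of zero-dimensionality of the subset `S` -/
def ZD (S : Set α) : Prop :=
  ∀ A B : Set α, IsClosed A → IsClosed B → Disjoint A B →
    ∃ U V : Set α, IsOpen U ∧ IsOpen V ∧ Disjoint U V ∧ A ⊆ U ∧ B ⊆ V ∧ S ⊆ U ∪ V

theorem ZD.mono {S S' : Set α} (h : ZD S) (hs : S' ⊆ S) : ZD S' := by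
  intro A B hA hB hd
  obtain ⟨U, V, hU, hV, hUV, hAU, hBV, hS⟩ := h A B hA hB hd
  exact ⟨U, V, hU, hV, hUV, hAU, hBV, hs.trans hS⟩

theorem SZ.mono {S S' : Set α} (h : SZ S) (hs : S' ⊆ S) : SZ S' := by
  intro x hx U hU hxU
  obtain ⟨W, hW, hxW, hWU, hc⟩ := h x (hs hx) U hU hxU
  exact ⟨W, hW, hxW, hWU, fun y hy => hc ⟨hy.1, hs hy.2⟩⟩

theorem RZ.sz [T3Space α] [SecondCountableTopology α] {S : Set α} (h : RZ S) : SZ S := by
  intro x hx U hU hxU
  obtain ⟨V, hV, hxV, hVU, hc⟩ := h x hx U hU hxU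
  have h1 : Disjoint (closure (V ∩ S)) (S \ V) := by
    rw [Set.disjoint_left]
    intro y hy1 hy2
    exact hy2.2 (hc ⟨hy1, hy2.1⟩)
  have h2 : Disjoint (V ∩ S) (closure (S \ V)) := by
    rw [Set.disjoint_left]
    intro y hy1 hy2
    have : (V ∩ (S \ V)).Nonempty := mem_closure_iff.1 hy2 V hV hy1.1
    obtain ⟨z, hz1, hz2⟩ := this
    exact hz2.2 hz1
  obtain ⟨W1, W2, hW1, hW2, hs1, hs2, hd⟩ :=
    separatedNhds_iff_disjoint.2 (completely_normal h1 h2)
  refine ⟨W1 ∩ U ∩ V, (hW1.inter hU).inter hV, ⟨⟨hs1 ⟨hxV, hx⟩, hxU⟩, hxV⟩, fun y hy => hy.1.2, ?_⟩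
  rintro y ⟨hy, hyS⟩
  have hy1 : y ∈ closure W1 := closure_mono (fun z hz => hz.1.1) hy
  have hy2 : y ∉ W2 := by
    intro hyW
    obtain ⟨z, hz1, hz2⟩ := mem_closure_iff.1 hy1 W2 hW2 hyW
    exact Set.disjoint_left.1 hd hz2 hz1
  have hy3 : y ∈ V := by
    by_contra hyV
    exact hy2 (hs2 ⟨hyS, hyV⟩)
  exact ⟨⟨hs1 ⟨hy3, hyS⟩, hVU ⟨hy3, hyS⟩⟩, hy3⟩

theorem SZ.rz {S : Set α} (h : SZ S) : RZ S := by
  intro x hx U hU hxU
  obtain ⟨W, hW, hxW, hWU, hc⟩ := h x hx U hU hxU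
  exact ⟨W, hW, hxW, fun y hy => hWU hy.1,
    fun y hy => hc ⟨closure_mono inter_subset_left hy.1, hy.2⟩⟩

/-- relative separation -/
theorem SZ.rsep [SecondCountableTopology α] {S A B : Set α} (h : SZ S) (hA : A ⊆ S) (hB : B ⊆ S)
    (hd : S ∩ closure A ∩ closure B = ∅) :
    ∃ U V : Set α, IsOpen U ∧ IsOpen V ∧ Disjoint U V ∧ A ⊆ U ∧ B ⊆ V ∧ S ⊆ U ∪ V := by
  classical
  have key : ∀ x ∈ S, ∃ W : Set α, IsOpen W ∧ x ∈ W ∧ closure W ∩ S ⊆ W ∧
      (Disjoint W A ∨ Disjoint W B) := by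
    intro x hx
    by_cases hxA : x ∈ closure A
    · have hxB : x ∉ closure B := fun hxB => by
        have : x ∈ S ∩ closure A ∩ closure B := ⟨⟨hx, hxA⟩, hxB⟩
        rw [hd] at this
        exact this
      obtain ⟨W, hW, hxW, hWU, hc⟩ := h x hx (closure B)ᶜ isClosed_closure.isOpen_compl hxB
      exact ⟨W, hW, hxW, hc, Or.inr (Set.disjoint_left.2 fun y hy hyB => hWU hy (subset_closure hyB))⟩
    · obtain ⟨W, hW, hxW, hWU, hc⟩ := h x hx (closure A)ᶜ isClosed_closure.isOpen_compl hxA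
      exact ⟨W, hW, hxW, hc, Or.inl (Set.disjoint_left.2 fun y hy hyA => hWU hy (subset_closure hyA))⟩
  choose! W hWo hxW hWc hWd using key
  obtain ⟨T, hTS, hTc, hcov⟩ := TopologicalSpace.countable_cover_nhdsWithin
    (f := W) (s := S) (fun x hx => mem_nhdsWithin_of_mem_nhds ((hWo x hx).mem_nhds (hxW x hx)))
  rcases T.eq_empty_or_nonempty with rfl | hTne
  · have hS : S = ∅ := by
      apply Set.eq_empty_of_subset_empty
      simpa using hcov
    subst hS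
    exact ⟨∅, ∅, isOpen_empty, isOpen_empty, by simp, hA, hB, by simp⟩
  obtain ⟨t, ht⟩ := hTc.exists_eq_range hTne
  have htS : ∀ j, t j ∈ S := fun j => hTS (ht ▸ mem_range_self j)
  let W' : ℕ → Set α := fun j => W (t j) \ ⋃ i ∈ Finset.range j, closure (W (t i))
  have hW'o : ∀ j, IsOpen (W' j) := by
    intro j
    refine (hWo _ (htS j)).sdiff ?_
    exact (Finset.finite_toSet _).isClosed_biUnion fun i _ => isClosed_closure
  have hW'cov : S ⊆ ⋃ j, W' j := by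
    intro x hx
    have hex : ∃ j, x ∈ W (t j) := by
      obtain ⟨y, hy, hxy⟩ := mem_iUnion₂.1 (hcov hx)
      rw [ht] at hy
      obtain ⟨j, rfl⟩ := hy
      exact ⟨j, hxy⟩
    refine mem_iUnion.2 ⟨Nat.find hex, Nat.find_spec hex, ?_⟩
    intro hmem
    obtain ⟨i, hi, hxi⟩ := mem_iUnion₂.1 hmem
    exact Nat.find_min hex (Finset.mem_range.1 hi) (hWc _ (htS i) ⟨hxi, hx⟩)
  have hW'd : ∀ i j, i ≠ j → Disjoint (W' i) (W' j) := by
    have aux : ∀ i j, i < j → Disjoint (W' i) (W' j) := by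
      intro i j hij
      rw [Set.disjoint_left]
      intro x hxi hxj
      exact hxj.2 (mem_iUnion₂.2 ⟨i, Finset.mem_range.2 hij, subset_closure hxi.1⟩)
    intro i j hij
    rcases lt_or_gt_of_ne hij with h | h
    · exact aux i j h
    · exact (aux j i h).symm
  refine ⟨⋃ j ∈ {j | Disjoint (W (t j)) B}, W' j, ⋃ j ∈ {j | ¬ Disjoint (W (t j)) B}, W' j,
    isOpen_biUnion fun j _ => hW'o j, isOpen_biUnion fun j _ => hW'o j, ?_, ?_, ?_, ?_⟩
  · rw [Set.disjoint_left]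
    intro x hx1 hx2
    obtain ⟨i, hi, hxi⟩ := mem_iUnion₂.1 hx1
    obtain ⟨j, hj, hxj⟩ := mem_iUnion₂.1 hx2
    have hij : i ≠ j := by
      rintro rfl
      exact hj hi
    exact Set.disjoint_left.1 (hW'd i j hij) hxi hxj
  · intro x hx
    obtain ⟨j, hj⟩ := mem_iUnion.1 (hW'cov (hA hx))
    refine mem_iUnion₂.2 ⟨j, ?_, hj⟩
    rcases hWd _ (htS j) with h1 | h1
    · exact absurd hx (Set.disjoint_left.1 h1 hj.1)
    · exact h1
  · intro x hx
    obtain ⟨j, hj⟩ := mem_iUnion.1 (hW'cov (hB hx))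
    refine mem_iUnion₂.2 ⟨j, ?_, hj⟩
    intro h1
    exact Set.disjoint_left.1 h1 hj.1 hx
  · intro x hx
    obtain ⟨j, hj⟩ := mem_iUnion.1 (hW'cov hx)
    by_cases h1 : Disjoint (W (t j)) B
    · exact Or.inl (mem_iUnion₂.2 ⟨j, h1, hj⟩)
    · exact Or.inr (mem_iUnion₂.2 ⟨j, h1, hj⟩)

theorem SZ.zd [T3Space α] [SecondCountableTopology α] {S : Set α} (h : SZ S) : ZD S := by
  intro A B hA hB hd
  obtain ⟨A', hA'o, hAA', hA'B⟩ := normal_exists_closure_subset hA hB.isOpen_compl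
    (Set.disjoint_left.1 hd)
  obtain ⟨B', hB'o, hBB', hB'A⟩ := normal_exists_closure_subset hB
    (isClosed_closure (s := A')).isOpen_compl (fun x hx hx' => hA'B hx' hx)
  obtain ⟨U, V, hU, hV, hUV, hAU, hBV, hS⟩ := h.rsep (A := closure A' ∩ S) (B := closure B' ∩ S)
    inter_subset_right inter_subset_right (by
      apply Set.eq_empty_of_forall_notMem
      rintro x ⟨⟨-, hx1⟩, hx2⟩
      have hx1' : x ∈ closure A' :=
        (closure_minimal inter_subset_left isClosed_closure) hx1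
      have hx2' : x ∈ closure B' :=
        (closure_minimal inter_subset_left isClosed_closure) hx2
      exact hB'A hx2' hx1')
  have hd' : ∀ x, x ∈ closure A' → x ∈ closure B' → False := fun x h1 h2 => hB'A h2 h1
  refine ⟨A' ∪ (U \ closure B'), B' ∪ (V \ closure A'), hA'o.union (hU.sdiff isClosed_closure),
    hB'o.union (hV.sdiff isClosed_closure), ?_, fun x hx => Or.inl (hAA' hx),
    fun x hx => Or.inl (hBB' hx), ?_⟩
  · rw [Set.disjoint_left]
    rintro x (hx | hx) (hx' | hx')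
    · exact hd' x (subset_closure hx) (subset_closure hx')
    · exact hx'.2 (subset_closure hx)
    · exact hx.2 (subset_closure hx')
    · exact Set.disjoint_left.1 hUV hx.1 hx'.1
  · intro x hx
    rcases hS hx with h1 | h1
    · by_cases h2 : x ∈ closure B'
      · exact absurd (hBV ⟨h2, hx⟩) (Set.disjoint_left.1 hUV h1)
      · exact Or.inl (Or.inr ⟨h1, h2⟩)
    · by_cases h2 : x ∈ closure A'
      · exact absurd h1 (Set.disjoint_left.1 hUV (hAU ⟨h2, hx⟩))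
      · exact Or.inr (Or.inr ⟨h1, h2⟩)

theorem ZD.sz [T1Space α] {S : Set α} (h : ZD S) : SZ S := by
  intro x hx U hU hxU
  obtain ⟨W, V, hW, hV, hWV, h1, h2, h3⟩ := h {x} Uᶜ isClosed_singleton hU.isClosed_compl
    (by simpa using hxU)
  refine ⟨W, hW, h1 rfl, ?_, ?_⟩
  · intro y hy
    by_contra hyU
    exact Set.disjoint_left.1 hWV hy (h2 hyU)
  · rintro y ⟨hy, hyS⟩
    rcases h3 hyS with h4 | h4
    · exact h4
    · obtain ⟨z, hz1, hz2⟩ := mem_closure_iff.1 hy V hV h4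
      exact absurd hz1 (Set.disjoint_left.1 hWV hz2)

/-- enlargement of a zero-dimensional set to a zero-dimensional countable intersection of open
sets; the complement is given as a countable union of closed sets -/
theorem ZD.enlarge [T3Space α] [SecondCountableTopology α] {S : Set α} (h : ZD S) :
    ∃ C : ℕ → Set α, (∀ j, IsClosed (C j)) ∧ (∀ j, Disjoint (C j) S) ∧ ZD (⋃ j, C j)ᶜ := by
  classical
  obtain ⟨b, hbc, hbe, hb⟩ := TopologicalSpace.exists_countable_basis α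
  let I : Set (Set α × Set α) := {p | p.1 ∈ b ∧ p.2 ∈ b ∧ closure p.1 ⊆ p.2}
  have hIc : I.Countable := by
    refine (hbc.prod hbc).mono ?_
    rintro p ⟨h1, h2, -⟩
    exact ⟨h1, h2⟩
  have key : ∀ p ∈ I, ∃ U V : Set α, IsOpen U ∧ IsOpen V ∧ Disjoint U V ∧ closure p.1 ⊆ U ∧
      p.2ᶜ ⊆ V ∧ S ⊆ U ∪ V := by
    rintro p ⟨h1, h2, h3⟩
    refine h _ _ isClosed_closure (hb.isOpen h2).isClosed_compl ?_
    exact Set.disjoint_left.2 fun x hx hx' => hx' (h3 hx)
  choose! U V hU hV hUV h1 h2 h3 using key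
  let C' : Set α × Set α → Set α := fun p => (U p ∪ V p)ᶜ
  obtain ⟨C, hC1, hC2⟩ : ∃ C : ℕ → Set α, (∀ j, C j = ∅ ∨ ∃ p ∈ I, C j = C' p) ∧
      ∀ p ∈ I, ∃ j, C j = C' p := by
    rcases I.eq_empty_or_nonempty with hI | hI
    · refine ⟨fun _ => ∅, fun j => Or.inl rfl, ?_⟩
      intro p hp
      rw [hI] at hp
      exact absurd hp (Set.notMem_empty p)
    · obtain ⟨t, ht⟩ := hIc.exists_eq_range hI
      refine ⟨fun j => C' (t j), fun j => Or.inr ⟨t j, ht ▸ mem_range_self j, rfl⟩, ?_⟩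
      intro p hp
      rw [ht] at hp
      obtain ⟨j, rfl⟩ := hp
      exact ⟨j, rfl⟩
  refine ⟨C, ?_, ?_, SZ.zd ?_⟩
  · intro j
    rcases hC1 j with h0 | ⟨p, hp, h0⟩
    · rw [h0]; exact isClosed_empty
    · rw [h0]; exact ((hU p hp).union (hV p hp)).isClosed_compl
  · intro j
    rcases hC1 j with h0 | ⟨p, hp, h0⟩
    · rw [h0]; exact Set.empty_disjoint _
    · rw [h0]
      exact Set.disjoint_left.2 fun x hx hx' => hx (h3 p hp hx')
  · intro x hx O hO hxO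
    obtain ⟨B2, hB2, hxB2, hB2O⟩ := hb.exists_subset_of_mem_open hxO hO
    obtain ⟨W, hWx, hWc, hWB⟩ : ∃ W : Set α, W ∈ 𝓝 x ∧ IsClosed W ∧ W ⊆ B2 :=
      exists_mem_nhds_isClosed_subset ((hb.isOpen hB2).mem_nhds hxB2)
    obtain ⟨B1, hB1, hxB1, hB1W⟩ := hb.mem_nhds_iff.1 hWx
    have hp : (B1, B2) ∈ I := ⟨hB1, hB2, (closure_minimal hB1W hWc).trans hWB⟩
    refine ⟨U (B1, B2), hU _ hp, h1 _ hp (subset_closure hxB1), ?_, ?_⟩
    · intro y hy
      apply hB2O
      by_contra hyB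
      exact Set.disjoint_left.1 (hUV _ hp) hy (h2 _ hp hyB)
    · rintro y ⟨hy, hyS⟩
      obtain ⟨j, hj⟩ := hC2 _ hp
      have hyC : y ∉ C' (B1, B2) := by
        rw [← hj]
        intro hyj
        exact hyS (mem_iUnion.2 ⟨j, hyj⟩)
      have hy' : y ∈ U (B1, B2) ∪ V (B1, B2) := by
        by_contra h4
        exact hyC h4
      rcases hy' with h4 | h4
      · exact h4
      · obtain ⟨z, hz1, hz2⟩ := mem_closure_iff.1 hy _ (hV _ hp) h4
        exact absurd hz1 (Set.disjoint_left.1 (hUV _ hp) hz2)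

/-- coordinates criterion in the countable product of lines -/
theorem sz_of_coord {S : Set (ℕ → ℝ)}
    (h : ∀ (i : ℕ) (p q : ℝ), p < q → ∃ r, p < r ∧ r < q ∧ ∀ x ∈ S, x i ≠ r) : SZ S := by
  classical
  intro x hx U hU hxU
  obtain ⟨I, u, hu, hIU⟩ := isOpen_pi_iff.1 hU x hxU
  have key : ∀ i ∈ I, ∃ r s : ℝ, r < x i ∧ x i < s ∧ Set.Icc r s ⊆ u i ∧
      (∀ y ∈ S, y i ≠ r) ∧ (∀ y ∈ S, y i ≠ s) := by
    intro i hi
    obtain ⟨hui, hxi⟩ := hu i hi
    obtain ⟨ε, hε, hball⟩ := Metric.isOpen_iff.1 hui (x i) hxi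
    obtain ⟨r, hr1, hr2, hr3⟩ := h i (x i - ε) (x i) (by linarith)
    obtain ⟨s, hs1, hs2, hs3⟩ := h i (x i) (x i + ε) (by linarith)
    refine ⟨r, s, hr2, hs1, ?_, hr3, hs3⟩
    rintro y ⟨hy1, hy2⟩
    apply hball
    rw [Metric.mem_ball, Real.dist_eq, abs_lt]
    constructor <;> linarith
  choose! r s hr hs hrs hr' hs' using key
  refine ⟨⋂ i ∈ I, {y : ℕ → ℝ | r i < y i ∧ y i < s i}, ?_, ?_, ?_, ?_⟩
  · refine isOpen_biInter_finset fun i hi => ?_
    exact (isOpen_lt continuous_const (continuous_apply i)).inter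
      (isOpen_lt (continuous_apply i) continuous_const)
  · exact mem_iInter₂.2 fun i hi => ⟨hr i hi, hs i hi⟩
  · intro y hy
    apply hIU
    intro i hi
    have := mem_iInter₂.1 hy i hi
    exact hrs i hi ⟨this.1.le, this.2.le⟩
  · rintro y ⟨hy, hyS⟩
    refine mem_iInter₂.2 fun i hi => ?_
    have h1 : closure (⋂ i ∈ I, {y : ℕ → ℝ | r i < y i ∧ y i < s i}) ⊆
        {y : ℕ → ℝ | r i ≤ y i ∧ y i ≤ s i} := by
      refine closure_minimal ?_ ?_
      · intro z hz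
        have := mem_iInter₂.1 hz i hi
        exact ⟨this.1.le, this.2.le⟩
      · exact (isClosed_le continuous_const (continuous_apply i)).inter
          (isClosed_le (continuous_apply i) continuous_const)
    have h2 := h1 hy
    exact ⟨lt_of_le_of_ne h2.1 (Ne.symm (hr' i hi y hyS)), lt_of_le_of_ne h2.2 (hs' i hi y hyS)⟩

end Pool.Agent.ZD8848
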